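import Pool.Agent.H666.TK.Defs

/-!
# Statements of the probabilistic part (each `S_...` is a proposition to be proved)
-/

set_option autoImplicit false

open Finset
open scoped Classical

namespace Pool.Agent.H666.TK

noncomputable section

/-- Sum over ordered cliques. -/
def S_avg : Prop := ∀ (V : Type) [Fintype V] [DecidableEq V] (H : Finset (Finset V)) (K : ℕ)
    (Φ : Finset V → ℝ),
    ∑ v ∈ Seq H K, Φ (univ.image v) = (K.factorial : ℝ) * ∑ L ∈ Cs H K, Φ L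

/-- Sequential choice: for every time profile `u`. -/
def S_T1 : Prop := ∀ (V : Type) [Fintype V] [DecidableEq V] (H : Finset (Finset V)) (K R : ℕ)
    (u : Fin K → Fin R),
    ∑ v ∈ Seq H K, ∏ i : Fin K, ((e H (bef v u i) : ℝ))⁻¹ ≤ 1

/-- Gibbs' inequality in the form needed. -/
def S_gibbs : Prop := ∀ (α β : Type) [Fintype β] [Nonempty β] (s : Finset α)
    (π w : α → β → ℝ), s.Nonempty →
    (∀ v ∈ s, ∀ u, 0 < π v u) → (∀ u, ∑ v ∈ s, π v u ≤ 1) →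
    (∀ v ∈ s, ∀ u, 0 < w v u) → (∀ v ∈ s, ∑ u, w v u = Fintype.card β) →
    (s.card : ℝ) * (Fintype.card β : ℝ) * Real.log s.card ≤
      ∑ v ∈ s, ∑ u, w v u * (Real.log (w v u) - Real.log (π v u))

/-- The weight `1 / (1 - ρ t²)`, `t = r / R`. -/
def lam (ρ : ℝ) (R : ℕ) (r : Fin R) : ℝ := 1 / (1 - ρ * (((r : ℕ) : ℝ) / R) ^ 2)

/-- `- log (1 - ρ t²) - ρ t² / (1 - ρ t²)`, `t = r / R`. -/
def psi (ρ : ℝ) (R : ℕ) (r : Fin R) : ℝ :=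
  - Real.log (1 - ρ * (((r : ℕ) : ℝ) / R) ^ 2) -
    ρ * (((r : ℕ) : ℝ) / R) ^ 2 / (1 - ρ * (((r : ℕ) : ℝ) / R) ^ 2)

/-- Pointwise upper bound for the sum of the logarithms of the numbers of extensions. -/
def S_point : Prop := ∀ (V : Type) [Fintype V] [DecidableEq V] (H : Finset (Finset V)) (K R : ℕ)
    (v : Fin K → V) (u : Fin K → Fin R) (ρ : ℝ) (a b : V → Fin K) (C : Finset V),
    v ∈ Seq H K → 0 ≤ ρ → ρ < 1 →
    (∀ x ∈ C, x ∉ univ.image v ∧ a x ≠ b x ∧ ({x, v (a x), v (b x)} : Finset V) ∉ H) →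
    ∑ i : Fin K, Real.log (e H (bef v u i) : ℝ) ≤
      K * Real.log (Fintype.card V) - ∑ i : Fin K, psi ρ R (u i) -
        (1 / (Fintype.card V : ℝ)) * ∑ x ∈ C, ∑ i : Fin K,
          (if u (a x) < u i ∧ u (b x) < u i then lam ρ R (u i) else 0)

/-- Product weights, one coordinate. -/
def S_prod1 : Prop := ∀ (K R : ℕ) (g : Fin K → Fin R → ℝ), (∀ j, ∑ r, g j r = R) →
    ∀ (i : Fin K) (φ : Fin R → ℝ),
    (R : ℝ) * ∑ u : Fin K → Fin R, (∏ j, g j (u j)) * φ (u i) = (R : ℝ) ^ K * ∑ r, g i r * φ r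

/-- Product weights, three coordinates. -/
def S_prod3 : Prop := ∀ (K R : ℕ) (g : Fin K → Fin R → ℝ), (∀ j, ∑ r, g j r = R) →
    ∀ (i a b : Fin K), i ≠ a → i ≠ b → a ≠ b → ∀ (φ : Fin R → ℝ),
    (R : ℝ) ^ 3 * ∑ u : Fin K → Fin R, (∏ j, g j (u j)) *
        (if u a < u i ∧ u b < u i then φ (u i) else 0) =
      (R : ℝ) ^ K * ∑ r, g i r * φ r * (∑ r' ∈ univ.filter (fun r' => r' < r), g a r') *
        (∑ r' ∈ univ.filter (fun r' => r' < r), g b r')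

/-- Removal of pair factors. -/
def S_mrem : Prop := ∀ (K R p : ℕ) (θ : ℝ) (s : Fin R → ℝ), ∑ r, s r = 0 →
    ∀ (a b : Fin p → Fin K), Function.Injective (Sum.elim a b) →
    ∀ (T : Finset (Fin p)) (F : (Fin K → Fin R) → ℝ),
    (∀ l ∈ T, (∀ u r, F (Function.update u (a l) r) = F u) ∨
      (∀ u r, F (Function.update u (b l) r) = F u)) →
    ∑ u : Fin K → Fin R, (∏ l ∈ T, (1 + θ * s (u (a l)) * s (u (b l)))) * F u =
      ∑ u : Fin K → Fin R, F u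

/-- The sign of a time: `+1` in the first half, `-1` in the second half. -/
def sgn (K : ℕ) (r : Fin (2 * K)) : ℝ := if (r : ℕ) < K then 1 else -1

/-- `G r = min (r, R - r) / R`, `R = 2 K`. -/
def GG (K : ℕ) (r : Fin (2 * K)) : ℝ := min ((r : ℕ) : ℝ) (2 * K - ((r : ℕ) : ℝ)) / (2 * K)

/-- Normalised moments of a weight `φ`. -/
def Lam (K : ℕ) (φ : Fin (2 * K) → ℝ) : ℝ :=
  (∑ r, φ r * (((r : ℕ) : ℝ) / (2 * K)) ^ 2) / (2 * K)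

def Gam (K : ℕ) (φ : Fin (2 * K) → ℝ) : ℝ := (∑ r, φ r * GG K r ^ 2) / (2 * K)

def The (K : ℕ) (φ : Fin (2 * K) → ℝ) : ℝ :=
  (∑ r, φ r * (((r : ℕ) : ℝ) / (2 * K)) * GG K r) / (2 * K)

/-- The pair weight. -/
def W1 (K p : ℕ) (θ : ℝ) (a b : Fin p → Fin K) (u : Fin K → Fin (2 * K)) : ℝ :=
  ∏ l, (1 + θ * sgn K (u (a l)) * sgn K (u (b l)))

/-- The vertex weight. -/
def W2 (K : ℕ) (A : Finset (Fin K)) (u : Fin K → Fin (2 * K)) : ℝ :=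
  ∏ i ∈ A, (1 + sgn K (u i) / 2)

/-- Properties of the pair weight. -/
def S_w1 : Prop := ∀ (K p : ℕ) (θ : ℝ) (a b : Fin p → Fin K), 1 ≤ K →
    Function.Injective (Sum.elim a b) → 0 ≤ θ → θ < 1 →
    (∀ u, 0 < W1 K p θ a b u) ∧
    (∑ u, W1 K p θ a b u = ((2 * K : ℕ) : ℝ) ^ K) ∧
    (∑ u, W1 K p θ a b u * Real.log (W1 K p θ a b u) ≤ ((2 * K : ℕ) : ℝ) ^ K * (θ ^ 2 * p)) ∧
    (∀ (ψ : Fin (2 * K) → ℝ) (i : Fin K), ∑ u, W1 K p θ a b u * ψ (u i) =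
      ((2 * K : ℕ) : ℝ) ^ K * ((∑ r, ψ r) / (2 * K)))

/-- Properties of the vertex weight. -/
def S_w2 : Prop := ∀ (K : ℕ) (A : Finset (Fin K)), 1 ≤ K →
    (∀ u, 0 < W2 K A u) ∧
    (∑ u, W2 K A u = ((2 * K : ℕ) : ℝ) ^ K) ∧
    (∑ u, W2 K A u * Real.log (W2 K A u) ≤ ((2 * K : ℕ) : ℝ) ^ K * ((A.card : ℝ) / 4)) ∧
    (∀ (ψ : Fin (2 * K) → ℝ), Antitone ψ → ∀ (i : Fin K), ((2 * K : ℕ) : ℝ) ^ K *
      ((∑ r, ψ r) / (2 * K)) ≤ ∑ u, W2 K A u * ψ (u i))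

/-- Coverage under the pair weight. -/
def S_e1 : Prop := ∀ (K p : ℕ) (θ : ℝ) (a b : Fin p → Fin K) (φ : Fin (2 * K) → ℝ), 1 ≤ K →
    Function.Injective (Sum.elim a b) → 0 ≤ θ → θ < 1 → (∀ r, 0 ≤ φ r) →
    ∀ (x y : Fin K), x ≠ y →
    ((∃ l, (x = a l ∧ y = b l) ∨ (x = b l ∧ y = a l)) →
      ((2 * K : ℕ) : ℝ) ^ K * (((K : ℝ) - 2) * (Lam K φ + θ * Gam K φ)) ≤
      ∑ u, W1 K p θ a b u * ∑ i : Fin K, (if u x < u i ∧ u y < u i then φ (u i) else 0)) ∧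
    (((2 * K : ℕ) : ℝ) ^ K * (((K : ℝ) - 2) * Lam K φ - 2 * θ * The K φ) ≤
      ∑ u, W1 K p θ a b u * ∑ i : Fin K, (if u x < u i ∧ u y < u i then φ (u i) else 0))

/-- Coverage under the vertex weight. -/
def S_e2 : Prop := ∀ (K : ℕ) (A : Finset (Fin K)) (φ : Fin (2 * K) → ℝ), 1 ≤ K →
    (∀ r, 0 ≤ φ r) → ∀ (x y : Fin K), x ≠ y →
    ((2 * K : ℕ) : ℝ) ^ K * (((K : ℝ) - 2 - A.card) *
        (Lam K φ + (if x ∈ A ∨ y ∈ A then The K φ / 2 else 0))) ≤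
      ∑ u, W2 K A u * ∑ i : Fin K, (if u x < u i ∧ u y < u i then φ (u i) else 0)

/-- Large matching or small cover. -/
def S_dich : Prop := ∀ (ι : Type) [Fintype ι] [DecidableEq ι] (hv : ι → ι → Prop) (p : ℕ),
    (∀ i j, hv i j → i ≠ j) →
    (∃ a b : Fin p → ι, Function.Injective (Sum.elim a b) ∧ ∀ l, hv (a l) (b l)) ∨
    (∃ A : Finset ι, A.card ≤ 2 * p ∧ ∀ i j, hv i j → i ∈ A ∨ j ∈ A)

/-- Numerical facts. -/
def S_num : Prop := ∀ (K : ℕ) (ρ : ℝ), 1 ≤ K → 0 ≤ ρ → ρ ≤ 27 / 100 →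
    (∀ r, 1 ≤ lam ρ (2 * K) r) ∧
    1 / 12 ≤ Gam K (lam ρ (2 * K)) ∧
    1 / 12 ≤ The K (lam ρ (2 * K)) ∧
    The K (lam ρ (2 * K)) ≤ 1 ∧
    0 ≤ Lam K (lam ρ (2 * K)) ∧
    Lam K (lam ρ (2 * K)) ≤ 1 / 2 ∧
    Antitone (psi ρ (2 * K)) ∧
    ∑ i ∈ range K, (- Real.log (1 - ρ * ((i : ℝ) / K) ^ 2)) ≤
      K * ((∑ r : Fin (2 * K), (- Real.log (1 - ρ * (((r : ℕ) : ℝ) / ((2 * K : ℕ) : ℝ)) ^ 2)))
        / (2 * K))

end

end Pool.Agent.H666.TK
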