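import Pool.Agent.H666.TK.Defs

/-!
# Basic lemmas
-/

set_option autoImplicit false
set_option linter.unusedSectionVars false

open Finset
open scoped Classical

namespace Pool.Agent.H666.TK

variable {V : Type} [Fintype V] [DecidableEq V] {H : Finset (Finset V)}

theorem Cl_mono {S T : Finset V} (h : T ⊆ S) (hS : Cl H S) : Cl H T :=
  fun U hU hc => hS U (hU.trans h) hc

theorem Cl_small {S : Finset V} (h : S.card ≤ 2) : Cl H S := by
  intro T hT hc
  have := card_le_card hT
  omega

theorem mem_ext {S : Finset V} {x : V} : x ∈ ext H S ↔ x ∉ S ∧ Cl H (insert x S) := by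
  simp [ext]

theorem mem_Cs {S : Finset V} {k : ℕ} : S ∈ Cs H k ↔ S.card = k ∧ Cl H S := by
  simp [Cs, mem_powersetCard]

theorem mem_lk {L : Finset V} {x : V} {P : Finset V} :
    P ∈ lk H L x ↔ (P ⊆ L ∧ P.card = 2) ∧ insert x P ∉ H := by
  simp [lk, mem_powersetCard]

theorem NA_symm {R : Finset V} {a b : V} (h : NA H R a b) : NA H R b a := by
  obtain ⟨h1, h2, h3, h4⟩ := h
  refine ⟨h2, h1, h3.symm, ?_⟩
  rw [Finset.insert_comm]
  exact h4

theorem NA_left {R : Finset V} {a b : V} (h : NA H R a b) : a ∈ ext H R := by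
  obtain ⟨h1, h2, h3, h4⟩ := h
  rw [mem_ext]
  exact ⟨h1, Cl_mono (insert_subset_insert _ (subset_insert _ _)) h4⟩

theorem NA_right {R : Finset V} {a b : V} (h : NA H R a b) : b ∈ ext H R := NA_left (NA_symm h)

theorem NA_ne {R : Finset V} {a b : V} (h : NA H R a b) : a ≠ b := h.2.2.1

theorem AD_ne {R : Finset V} {a b : V} (h : AD H R a b) : a ≠ b := h.2.2.1

theorem AD_symm {R : Finset V} {a b : V} (h : AD H R a b) : AD H R b a := by
  obtain ⟨h1, h2, h3, h4⟩ := h
  refine ⟨h2, h1, h3.symm, ?_⟩
  rw [Finset.insert_comm]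
  exact h4

/-- Two different extensions are either adjacent or not adjacent. -/
theorem NA_or_AD {R : Finset V} {a b : V} (ha : a ∈ ext H R) (hb : b ∈ ext H R) (hab : a ≠ b) :
    NA H R a b ∨ AD H R a b := by
  by_cases h : Cl H (insert a (insert b R))
  · exact Or.inl ⟨(mem_ext.1 ha).1, (mem_ext.1 hb).1, hab, h⟩
  · exact Or.inr ⟨ha, hb, hab, h⟩

theorem NA_not_AD {R : Finset V} {a b : V} (h : NA H R a b) : ¬ AD H R a b := fun h' => h'.2.2.2 h.2.2.2

theorem Tr_swap12 {R : Finset V} {a b x : V} (h : Tr H R a b x) : Tr H R b a x := by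
  obtain ⟨h1, h2, h3, h4⟩ := h
  refine ⟨NA_symm h1, h3, h2, ?_⟩
  rwa [Finset.insert_comm]

theorem Tr_swap23 {R : Finset V} {a b x : V} (h : Tr H R a b x) : Tr H R a x b := by
  obtain ⟨h1, h2, h3, h4⟩ := h
  refine ⟨h2, h1, NA_symm h3, ?_⟩
  have : ({a, x, b} : Finset V) = {a, b, x} := by
    rw [Finset.pair_comm x b]
  rwa [this]

theorem cd_comm {R : Finset V} (a b : V) : cd H R a b = cd H R b a := by
  unfold cd
  congr 1
  ext x
  simp only [mem_filter, mem_univ, true_and]
  exact ⟨Tr_swap12, Tr_swap12⟩

theorem Lt_swap12 {B : ℕ} {R : Finset V} {a b x : V} (h : Lt H B R a b x) : Lt H B R b a x := by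
  obtain ⟨h1, h2, h3, h4⟩ := h
  exact ⟨Tr_swap12 h1, by rwa [cd_comm], h4, h3⟩

theorem Lt_swap23 {B : ℕ} {R : Finset V} {a b x : V} (h : Lt H B R a b x) : Lt H B R a x b := by
  obtain ⟨h1, h2, h3, h4⟩ := h
  exact ⟨Tr_swap23 h1, h3, h2, by rwa [cd_comm]⟩

/-- A set of three different vertices together with `R` is a clique if and only if ... -/
theorem Cl_insert3 {R : Finset V} {a b c : V} (hab : a ≠ b) (hac : a ≠ c) (hbc : b ≠ c) :
    Cl H (insert a (insert b (insert c R))) ↔ Cl H (insert a (insert b R)) ∧
      Cl H (insert a (insert c R)) ∧ Cl H (insert b (insert c R)) ∧ ({a, b, c} : Finset V) ∈ H := by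
  constructor
  · intro h
    refine ⟨Cl_mono ?_ h, Cl_mono ?_ h, Cl_mono ?_ h, h _ ?_ ?_⟩
    · intro y hy
      simp only [mem_insert] at hy ⊢
      tauto
    · intro y hy
      simp only [mem_insert] at hy ⊢
      tauto
    · intro y hy
      simp only [mem_insert] at hy ⊢
      tauto
    · intro y hy
      simp only [mem_insert, mem_singleton] at hy ⊢
      tauto
    · rw [card_insert_of_notMem, card_insert_of_notMem, card_singleton]
      · simpa using hbc
      · simp [hab, hac]
  · rintro ⟨h1, h2, h3, h4⟩ T hT hc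
    by_cases ha : a ∈ T
    · by_cases hb : b ∈ T
      · by_cases hc' : c ∈ T
        · have hsub : ({a, b, c} : Finset V) ⊆ T := by
            intro y hy
            simp only [mem_insert, mem_singleton] at hy
            rcases hy with rfl | rfl | rfl <;> assumption
          have hcard : ({a, b, c} : Finset V).card = 3 := by
            rw [card_insert_of_notMem, card_insert_of_notMem, card_singleton]
            · simpa using hbc
            · simp [hab, hac]
          have : ({a, b, c} : Finset V) = T := eq_of_subset_of_card_le hsub (by omega)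
          rwa [← this]
        · refine h1 T ?_ hc
          intro y hy
          have := hT hy
          simp only [mem_insert] at this ⊢
          rcases this with h | h | h | h
          · exact Or.inl h
          · exact Or.inr (Or.inl h)
          · exact absurd (h ▸ hy) hc'
          · exact Or.inr (Or.inr h)
      · refine h2 T ?_ hc
        intro y hy
        have := hT hy
        simp only [mem_insert] at this ⊢
        rcases this with h | h | h | h
        · exact Or.inl h
        · exact absurd (h ▸ hy) hb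
        · exact Or.inr (Or.inl h)
        · exact Or.inr (Or.inr h)
    · refine h3 T ?_ hc
      intro y hy
      have := hT hy
      simp only [mem_insert] at this ⊢
      rcases this with h | h | h | h
      · exact absurd (h ▸ hy) ha
      · exact Or.inl h
      · exact Or.inr (Or.inl h)
      · exact Or.inr (Or.inr h)

/-- Non-adjacency over a larger clique gives non-adjacency over a smaller one. -/
theorem NA_mono {R S : Finset V} {a b : V} (h : R ⊆ S) (hn : NA H S a b) : NA H R a b := by
  obtain ⟨h1, h2, h3, h4⟩ := hn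
  exact ⟨fun h' => h1 (h h'), fun h' => h2 (h h'), h3,
    Cl_mono (insert_subset_insert _ (insert_subset_insert _ h)) h4⟩

/-- Critical triples over a larger clique are critical over a smaller one. -/
theorem Tr_mono {R S : Finset V} {a b x : V} (h : R ⊆ S) (ht : Tr H S a b x) : Tr H R a b x :=
  ⟨NA_mono h ht.1, NA_mono h ht.2.1, NA_mono h ht.2.2.1, ht.2.2.2⟩

theorem cd_mono {R S : Finset V} {a b : V} (h : R ⊆ S) : cd H S a b ≤ cd H R a b := by
  unfold cd
  refine card_le_card fun x hx => ?_
  simp only [mem_filter, mem_univ, true_and] at hx ⊢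
  exact Tr_mono h hx

/-- If `c` is compatible with `a`, `b` over `R`, then `a`, `b` are not adjacent over `R + c`. -/
theorem NA_insert_iff {R : Finset V} {a b c : V} (hca : NA H R c a) (hcb : NA H R c b)
    (hab : NA H R a b) : NA H (insert c R) a b ↔ ({c, a, b} : Finset V) ∈ H := by
  have h3 := Cl_insert3 (H := H) (R := R) (a := c) (b := a) (c := b) hca.2.2.1 hcb.2.2.1 hab.2.2.1
  have e1 : insert a (insert b (insert c R)) = insert c (insert a (insert b R)) := by
    ext y; simp only [mem_insert]; tauto
  constructor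
  · intro h
    have := h.2.2.2
    rw [e1] at this
    exact (h3.1 this).2.2.2
  · intro h
    refine ⟨?_, ?_, hab.2.2.1, ?_⟩
    · simp only [mem_insert, not_or]
      exact ⟨hca.2.2.1.symm, hab.1⟩
    · simp only [mem_insert, not_or]
      exact ⟨hcb.2.2.1.symm, hab.2.1⟩
    · rw [e1]
      refine h3.2 ⟨hca.2.2.2, hcb.2.2.2, hab.2.2.2, h⟩

/-- If `c` is compatible with `a`, `b` over `R` and `{c, a, b}` is missing, then `a`, `b` are
adjacent over `R + c`. -/
theorem AD_insert_of_missing {R : Finset V} {a b c : V} (hca : NA H R c a) (hcb : NA H R c b)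
    (hab : a ≠ b) (hm : ({c, a, b} : Finset V) ∉ H) : AD H (insert c R) a b := by
  refine ⟨?_, ?_, hab, ?_⟩
  · rw [mem_ext]
    refine ⟨?_, ?_⟩
    · simp only [mem_insert, not_or]
      exact ⟨hca.2.2.1.symm, hca.2.1⟩
    · rw [Finset.insert_comm]; exact hca.2.2.2
  · rw [mem_ext]
    refine ⟨?_, ?_⟩
    · simp only [mem_insert, not_or]
      exact ⟨hcb.2.2.1.symm, hcb.2.1⟩
    · rw [Finset.insert_comm]; exact hcb.2.2.2
  · intro h
    apply hm
    refine h _ ?_ ?_
    · intro y hy
      simp only [mem_insert, mem_singleton] at hy ⊢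
      tauto
    · rw [card_insert_of_notMem, card_insert_of_notMem, card_singleton]
      · simpa using hab
      · simp [hca.2.2.1, hcb.2.2.1]

/-- Adjacency over `R` persists over `R + c` if both vertices are compatible with `c`. -/
theorem AD_insert {R : Finset V} {a b c : V} (hca : NA H R c a) (hcb : NA H R c b)
    (hab : AD H R a b) : AD H (insert c R) a b := by
  refine ⟨?_, ?_, hab.2.2.1, ?_⟩
  · rw [mem_ext]
    refine ⟨?_, ?_⟩
    · simp only [mem_insert, not_or]
      exact ⟨hca.2.2.1.symm, hca.2.1⟩
    · rw [Finset.insert_comm]; exact hca.2.2.2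
  · rw [mem_ext]
    refine ⟨?_, ?_⟩
    · simp only [mem_insert, not_or]
      exact ⟨hcb.2.2.1.symm, hcb.2.1⟩
    · rw [Finset.insert_comm]; exact hcb.2.2.2
  · intro h
    exact hab.2.2.2 (Cl_mono (insert_subset_insert _ (insert_subset_insert _
      (subset_insert _ _))) h)

/-- `x ∉ L` extends the clique `L` if and only if its missing link in `L` is empty. -/
theorem lk_eq_empty_iff {L : Finset V} {x : V} (hL : Cl H L) (hx : x ∉ L) :
    lk H L x = ∅ ↔ Cl H (insert x L) := by
  constructor
  · intro h T hT hc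
    by_cases hxT : x ∈ T
    · by_contra hcon
      have hP : T.erase x ∈ lk H L x := by
        rw [mem_lk]
        refine ⟨⟨?_, ?_⟩, ?_⟩
        · intro y hy
          rw [mem_erase] at hy
          have := hT hy.2
          rw [mem_insert] at this
          exact this.resolve_left hy.1
        · rw [card_erase_of_mem hxT, hc]
        · rwa [insert_erase hxT]
      rw [h] at hP
      exact absurd hP (notMem_empty _)
    · refine hL T ?_ hc
      intro y hy
      have := hT hy
      rw [mem_insert] at this
      exact this.resolve_left (fun h' => hxT (h' ▸ hy))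
  · intro h
    rw [eq_empty_iff_forall_notMem]
    intro P hP
    rw [mem_lk] at hP
    apply hP.2
    refine h _ (insert_subset_insert _ hP.1.1) ?_
    rw [card_insert_of_notMem (fun h' => hx (hP.1.1 h')), hP.1.2]

theorem Cs_erase {L : Finset V} {k : ℕ} {a : V} (hL : L ∈ Cs H (k + 1)) (ha : a ∈ L) :
    L.erase a ∈ Cs H k := by
  rw [mem_Cs] at hL ⊢
  refine ⟨?_, Cl_mono (erase_subset _ _) hL.2⟩
  rw [card_erase_of_mem ha, hL.1]
  rfl

theorem Cs_insert {R : Finset V} {k : ℕ} {a : V} (hR : R ∈ Cs H k) (ha : a ∈ ext H R) :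
    insert a R ∈ Cs H (k + 1) := by
  rw [mem_Cs] at hR ⊢
  rw [mem_ext] at ha
  exact ⟨by rw [card_insert_of_notMem ha.1, hR.1], ha.2⟩

end Pool.Agent.H666.TK
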