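import Pool.Agent.H666.TK.SpecB

set_option autoImplicit false

open Finset
open scoped Classical

namespace Pool.Agent.H34.TKsum

open Pool.Agent.H666.TK

/-- Double counting: pairs (clique `L` on `k + 1` vertices, `a ∈ L`) correspond to pairs
(clique `K` on `k` vertices, `x` extending `K`). -/
theorem gen {V : Type} [Fintype V] [DecidableEq V] (H : Finset (Finset V)) (k : ℕ)
    (g : Finset V → ℕ) :
    ∑ L ∈ Cs H (k + 1), ∑ a ∈ L, g (L.erase a) = ∑ K ∈ Cs H k, ∑ _x ∈ ext H K, g K := by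
  rw [Finset.sum_sigma', Finset.sum_sigma']
  refine Finset.sum_bij' (fun p _ => ⟨p.1.erase p.2, p.2⟩) (fun q _ => ⟨insert q.2 q.1, q.2⟩)
    ?_ ?_ ?_ ?_ ?_
  · rintro ⟨L, a⟩ h
    rw [Finset.mem_sigma] at h ⊢
    obtain ⟨h1, h2⟩ := h
    refine ⟨Cs_erase h1 h2, ?_⟩
    rw [mem_ext]
    refine ⟨Finset.notMem_erase _ _, ?_⟩
    show Cl H (insert a (L.erase a))
    rw [Finset.insert_erase h2]
    exact (mem_Cs.1 h1).2
  · rintro ⟨K, x⟩ h
    rw [Finset.mem_sigma] at h ⊢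
    obtain ⟨h1, h2⟩ := h
    exact ⟨Cs_insert h1 h2, Finset.mem_insert_self _ _⟩
  · rintro ⟨L, a⟩ h
    rw [Finset.mem_sigma] at h
    obtain ⟨h1, h2⟩ := h
    show (⟨insert a (L.erase a), a⟩ : Σ _ : Finset V, V) = ⟨L, a⟩
    rw [Finset.insert_erase h2]
  · rintro ⟨K, x⟩ h
    rw [Finset.mem_sigma] at h
    obtain ⟨h1, h2⟩ := h
    have h3 : x ∉ K := (mem_ext.1 h2).1
    show (⟨(insert x K).erase x, x⟩ : Σ _ : Finset V, V) = ⟨K, x⟩
    rw [Finset.erase_insert h3]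
  · rintro ⟨L, a⟩ _
    rfl

theorem sum2 : S_sum2 := by
  intro V _ _ H k
  rw [gen H k (fun K => e H K)]
  refine Finset.sum_congr rfl fun K _ => ?_
  rw [Finset.sum_const, smul_eq_mul, sq]
  rfl

theorem sum1 : S_sum1 := by
  intro V _ _ H k
  have h := gen H k (fun _ => 1)
  simp only [Finset.sum_const, smul_eq_mul, mul_one] at h
  have h2 : ∑ K ∈ Cs H k, e H K = ∑ K ∈ Cs H k, (ext H K).card := rfl
  rw [h2, ← h]
  have h3 : ∀ L ∈ Cs H (k + 1), L.card = k + 1 := fun L hL => (mem_Cs.1 hL).1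
  rw [Finset.sum_congr rfl h3, Finset.sum_const, smul_eq_mul, mul_comm]
  rfl

end Pool.Agent.H34.TKsum
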