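import Pool.Agent.H666.TK.SpecB

/-!
# The chain of Moon-Moser and de Caen with the doubly covered vertices
-/

set_option autoImplicit false
set_option linter.unusedSectionVars false

open Finset
open scoped Classical

namespace Pool.Agent.H666.TK

noncomputable section

variable {V : Type} [Fintype V] [DecidableEq V] (H : Finset (Finset V))

/-- Average proportion of extensions of a clique with `k` vertices. -/
def Eb (k : ℕ) : ℝ := ((k : ℝ) + 1) * N H (k + 1) / ((Fintype.card V : ℝ) * N H k)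

/-- Average proportion of covered vertices. -/
def fb (k : ℕ) : ℝ := 1 - Eb H k

/-- Average proportion of doubly covered vertices. -/
def Db (k : ℕ) : ℝ := (DS H k : ℝ) / ((Fintype.card V : ℝ) * N H k)

/-- Normalised average proportion of covered vertices. -/
def Fb (k : ℕ) : ℝ := fb H k / ((k : ℝ) * ((k : ℝ) - 1))

variable {H}

theorem N_pos_of_succ {k : ℕ} (h : 0 < N H (k + 1)) : 0 < N H k := by
  unfold N at h ⊢
  rw [card_pos] at h ⊢
  obtain ⟨L, hL⟩ := h
  have hc := (mem_Cs.1 hL).1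
  have : L.Nonempty := by
    rw [← card_pos]; omega
  obtain ⟨a, ha⟩ := this
  exact ⟨_, Cs_erase hL ha⟩

theorem N_pos_of_le {k l : ℕ} (hkl : k ≤ l) (h : 0 < N H l) : 0 < N H k := by
  induction l, hkl using Nat.le_induction with
  | base => exact h
  | succ l hl ih => exact ih (N_pos_of_succ h)

theorem card_pos_of_N {k : ℕ} (hk : 1 ≤ k) (h : 0 < N H k) : 0 < Fintype.card V := by
  unfold N at h
  rw [card_pos] at h
  obtain ⟨L, hL⟩ := h
  have hc := (mem_Cs.1 hL).1
  have : L.card ≤ Fintype.card V := card_le_univ L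
  omega

/-- The chain inequality for natural numbers. -/
theorem chain_nat (hloc : S_loc) (h1 : S_sum1) (h2 : S_sum2) (k : ℕ) :
    ((k + 1) * N H (k + 1)) ^ 2 + N H k * (DS H (k + 1) + 2 * ((k + 2) * N H (k + 2))) ≤
      N H k * ((k + 1) * ((k + 2) * N H (k + 2)) + 2 * Fintype.card V * N H (k + 1)) := by
  have hsum : ∑ L ∈ Cs H (k + 1), (∑ a ∈ L, e H (L.erase a) + Dd H L + 2 * e H L) ≤
      ∑ L ∈ Cs H (k + 1), ((k + 1) * e H L + 2 * Fintype.card V) :=
    sum_le_sum fun L hL => hloc V H k L hL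
  rw [sum_add_distrib, sum_add_distrib, sum_add_distrib, h2 V H k, ← mul_sum, ← mul_sum,
    h1 V H (k + 1), sum_const, smul_eq_mul] at hsum
  have hcs : (∑ K ∈ Cs H k, e H K) ^ 2 ≤ (Cs H k).card * ∑ K ∈ Cs H k, e H K ^ 2 :=
    sq_sum_le_card_mul_sum_sq
  rw [h1 V H k] at hcs
  have hDS : ∑ L ∈ Cs H (k + 1), Dd H L = DS H (k + 1) := rfl
  rw [hDS] at hsum
  have hN : (Cs H k).card = N H k := rfl
  have hN1 : (Cs H (k + 1)).card = N H (k + 1) := rfl
  rw [hN] at hcs
  rw [hN1] at hsum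
  have h3 := Nat.mul_le_mul_left (N H k) hsum
  have e1 : k + 1 + 1 = k + 2 := rfl
  rw [e1] at h3
  nlinarith [h3, hcs]

/-- The chain inequality for the averages. -/
theorem chain_real (hloc : S_loc) (h1 : S_sum1) (h2 : S_sum2) {k : ℕ} (hN : 0 < N H (k + 1)) :
    ((k : ℝ) - 1) * fb H (k + 1) + Db H (k + 1) ≤ ((k : ℝ) + 1) * fb H k := by
  have h0 : 0 < N H k := N_pos_of_succ hN
  have hn : 0 < Fintype.card V := card_pos_of_N (by omega) hN
  have hc := chain_nat (H := H) hloc h1 h2 k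
  have hc' : (((k : ℝ) + 1) * N H (k + 1)) ^ 2 +
      N H k * (DS H (k + 1) + 2 * (((k : ℝ) + 2) * N H (k + 2))) ≤
      N H k * (((k : ℝ) + 1) * (((k : ℝ) + 2) * N H (k + 2)) +
        2 * Fintype.card V * N H (k + 1)) := by
    exact_mod_cast hc
  have hk0 : (0 : ℝ) < N H k := by exact_mod_cast h0
  have hk1 : (0 : ℝ) < N H (k + 1) := by exact_mod_cast hN
  have hn' : (0 : ℝ) < Fintype.card V := by exact_mod_cast hn
  have key : ((k : ℝ) + 1) * Eb H k + Db H (k + 1) + 2 * Eb H (k + 1) ≤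
      ((k : ℝ) + 1) * Eb H (k + 1) + 2 := by
    have hpos : (0 : ℝ) < N H k * (Fintype.card V * N H (k + 1)) := by positivity
    rw [← mul_le_mul_iff_right₀ hpos]
    unfold Eb Db
    have e1 : (N H k : ℝ) * (Fintype.card V * N H (k + 1)) *
        (((k : ℝ) + 1) * (((k : ℝ) + 1) * N H (k + 1) / ((Fintype.card V : ℝ) * N H k)) +
          (DS H (k + 1) : ℝ) / ((Fintype.card V : ℝ) * N H (k + 1)) +
          2 * ((((k + 1 : ℕ) : ℝ) + 1) * N H (k + 1 + 1) /
            ((Fintype.card V : ℝ) * N H (k + 1)))) =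
        (((k : ℝ) + 1) * N H (k + 1)) ^ 2 +
      N H k * (DS H (k + 1) + 2 * (((k : ℝ) + 2) * N H (k + 2))) := by
      push_cast
      field_simp
      ring
    have e2 : (N H k : ℝ) * (Fintype.card V * N H (k + 1)) *
        (((k : ℝ) + 1) * ((((k + 1 : ℕ) : ℝ) + 1) * N H (k + 1 + 1) /
            ((Fintype.card V : ℝ) * N H (k + 1))) + 2) =
        N H k * (((k : ℝ) + 1) * (((k : ℝ) + 2) * N H (k + 2)) +
        2 * Fintype.card V * N H (k + 1)) := by
      push_cast
      field_simp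
      ring
    rw [e1, e2]
    exact hc'
  unfold fb
  linarith

theorem Db_nonneg (k : ℕ) : 0 ≤ Db H k := by unfold Db; positivity

theorem Eb_nonneg (k : ℕ) : 0 ≤ Eb H k := by unfold Eb; positivity

/-- One step for the normalised averages. -/
theorem chain_F (hloc : S_loc) (h1 : S_sum1) (h2 : S_sum2) {k : ℕ} (hk : 2 ≤ k)
    (hN : 0 < N H (k + 1)) :
    Fb H (k + 1) + Db H (k + 1) / (((k : ℝ) - 1) * k * (k + 1)) ≤ Fb H k := by
  have h := chain_real hloc h1 h2 hN
  have hk' : (2 : ℝ) ≤ k := by exact_mod_cast hk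
  unfold Fb
  have hp : 0 < ((k : ℝ) - 1) * k * (k + 1) := by
    have : (0 : ℝ) < (k : ℝ) - 1 := by linarith
    positivity
  have hk1 : ((k : ℝ) - 1) ≠ 0 := by
    have : (0 : ℝ) < (k : ℝ) - 1 := by linarith
    exact this.ne'
  have e1 : fb H (k + 1) / (((k + 1 : ℕ) : ℝ) * (((k + 1 : ℕ) : ℝ) - 1)) +
      Db H (k + 1) / (((k : ℝ) - 1) * k * (k + 1)) =
      (((k : ℝ) - 1) * fb H (k + 1) + Db H (k + 1)) / (((k : ℝ) - 1) * k * (k + 1)) := by
    push_cast
    have : (k : ℝ) + 1 - 1 = k := by ring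
    rw [this]
    field_simp
  have e2 : fb H k / ((k : ℝ) * ((k : ℝ) - 1)) =
      (((k : ℝ) + 1) * fb H k) / (((k : ℝ) - 1) * k * (k + 1)) := by
    field_simp
  rw [e1, e2]
  exact div_le_div_of_nonneg_right h hp.le

/-- Telescoping. -/
theorem chain_tele (hloc : S_loc) (h1 : S_sum1) (h2 : S_sum2) {a b : ℕ} (ha : 2 ≤ a)
    (hab : a ≤ b) (hN : 0 < N H b) :
    Fb H b + ∑ k ∈ Ico a b, Db H (k + 1) / (((k : ℝ) - 1) * k * (k + 1)) ≤ Fb H a := by
  induction b, hab using Nat.le_induction with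
  | base => simp
  | succ b hb ih =>
    rw [sum_Ico_succ_top hb]
    have := ih (N_pos_of_succ hN)
    have h3 := chain_F (H := H) hloc h1 h2 (k := b) (by omega) hN
    linarith

theorem Fb_anti (hloc : S_loc) (h1 : S_sum1) (h2 : S_sum2) {a b : ℕ} (ha : 2 ≤ a)
    (hab : a ≤ b) (hN : 0 < N H b) : Fb H b ≤ Fb H a := by
  have h := chain_tele (H := H) hloc h1 h2 ha hab hN
  have h0 : 0 ≤ ∑ k ∈ Ico a b, Db H (k + 1) / (((k : ℝ) - 1) * k * (k + 1)) := by
    refine sum_nonneg fun k hk => div_nonneg (Db_nonneg _) ?_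
    rw [mem_Ico] at hk
    have : (2 : ℝ) ≤ k := by exact_mod_cast ha.trans hk.1
    have h' : (0 : ℝ) ≤ (k : ℝ) - 1 := by linarith
    positivity
  linarith

/-- The clique number. -/
theorem exists_top {m : ℕ} (h2' : 0 < N H 2) (hm : N H m = 0) :
    ∃ w : ℕ, 2 ≤ w ∧ w < m ∧ 0 < N H w ∧ N H (w + 1) = 0 := by
  have hex : ∃ w, N H (w + 1) = 0 := by
    refine ⟨m, ?_⟩
    by_contra hcon
    have := N_pos_of_succ (Nat.pos_of_ne_zero hcon)
    omega
  classical
  obtain ⟨w, hw⟩ : ∃ w, w = Nat.find hex := ⟨_, rfl⟩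
  have hw1 : N H (w + 1) = 0 := by rw [hw]; exact Nat.find_spec hex
  have hmin : ∀ v, v < w → 0 < N H (v + 1) := by
    intro v hv
    rw [hw] at hv
    exact Nat.pos_of_ne_zero (Nat.find_min hex hv)
  have hw2 : 2 ≤ w := by
    by_contra hcon
    have : w = 0 ∨ w = 1 := by omega
    have h3 : w + 1 ≤ 2 := by omega
    have := N_pos_of_le h3 h2'
    omega
  have hw3 : 0 < N H w := by
    have := hmin (w - 1) (by omega)
    rwa [Nat.sub_add_cancel (by omega)] at this
  refine ⟨w, hw2, ?_, hw3, hw1⟩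
  by_contra hcon
  have := N_pos_of_le (not_lt.1 hcon) hw3
  omega

theorem Fb_top {w : ℕ} (hw1 : N H (w + 1) = 0) : Fb H w = 1 / ((w : ℝ) * ((w : ℝ) - 1)) := by
  unfold Fb fb Eb
  rw [hw1]
  simp

end

end Pool.Agent.H666.TK
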