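import Mathlib

/-!
# The final numerical contradiction
-/

set_option autoImplicit false

namespace Pool.Agent.H666.TK

/-- The loss `D`. -/
theorem loss_le {m K n Λ F f : ℝ} (hm : (10 : ℝ) ^ 20 ≤ m) (hK1 : m / 4 ≤ K - 1)
    (hK2 : K ≤ m / 2) (hn : 10000 * m ^ 2 ≤ n) (hΛ0 : 0 ≤ Λ) (hΛ1 : Λ ≤ 1 / 2)
    (hF : F ≤ (1 + 2 / 10 ^ 17) / m ^ 2) (hf1 : K * (K - 1) / m ^ 2 ≤ f) :
    K * (F * K ^ 2) * Λ - (K - 2) * Λ * (f - K / n) ≤ 2 / 10 ^ 17 * m / 16 + 1 / 2 := by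
  have hm1 : (100 : ℝ) ≤ m := le_trans (by norm_num) hm
  have hm0 : 0 < m := by linarith
  have hK0 : 0 < K := by linarith
  have hK2' : 0 ≤ K - 2 := by linarith
  have hn0 : 0 < n := by
    have : 0 < 10000 * m ^ 2 := by positivity
    linarith
  obtain ⟨x, hx⟩ : ∃ x : ℝ, x = K / m := ⟨_, rfl⟩
  have hx0 : 0 < x := by rw [hx]; positivity
  have hx1 : x ≤ 1 / 2 := by rw [hx, div_le_iff₀ hm0]; linarith
  have hKx : K = x * m := by rw [hx]; field_simp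
  have a1 : K * (F * K ^ 2) ≤ (1 + 2 / 10 ^ 17) * (K * x ^ 2) := by
    have e : (1 + 2 / 10 ^ 17) * (K * x ^ 2) = K * ((1 + 2 / 10 ^ 17) / m ^ 2 * K ^ 2) := by
      rw [hx]; field_simp
    rw [e]
    exact mul_le_mul_of_nonneg_left (mul_le_mul_of_nonneg_right hF (by positivity)) hK0.le
  have a2 : (K - 2) * (x * (x - 1 / m)) ≤ (K - 2) * f := by
    refine mul_le_mul_of_nonneg_left ?_ hK2'
    have e : x * (x - 1 / m) = K * (K - 1) / m ^ 2 := by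
      rw [hx]; field_simp
    rw [e]; exact hf1
  have a3 : (K - 2) * (K / n) ≤ 1 / 10 := by
    rw [mul_div_assoc', div_le_iff₀ hn0]
    have : (K - 2) * K ≤ m / 2 * (m / 2) := mul_le_mul (by linarith) hK2 hK0.le (by linarith)
    nlinarith
  have a4 : K * x ^ 2 ≤ m / 2 * (1 / 2) ^ 2 :=
    mul_le_mul hK2 (pow_le_pow_left₀ hx0.le hx1 2) (by positivity) (by positivity)
  have a5 : (K - 2) * (x * (1 / m)) ≤ x ^ 2 := by
    have e : (x : ℝ) ^ 2 = K * (x * (1 / m)) := by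
      rw [hKx]; field_simp
    rw [e]
    exact mul_le_mul_of_nonneg_right (by linarith) (by positivity)
  have a6 : x ^ 2 ≤ (1 / 2) ^ 2 := pow_le_pow_left₀ hx0.le hx1 2
  have a7 : K * (F * K ^ 2) - (K - 2) * (f - K / n) ≤ 2 / 10 ^ 17 * m / 8 + 1 := by
    have e1 : (K - 2) * (x * (x - 1 / m)) = K * x ^ 2 - 2 * x ^ 2 - (K - 2) * (x * (1 / m)) := by
      ring
    rw [e1] at a2
    have e2 : (1 + 2 / 10 ^ 17) * (K * x ^ 2) = K * x ^ 2 + 2 / 10 ^ 17 * (K * x ^ 2) := by ring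
    rw [e2] at a1
    have e3 : (K - 2) * (f - K / n) = (K - 2) * f - (K - 2) * (K / n) := by ring
    rw [e3]
    have e4 : 2 / 10 ^ 17 * (K * x ^ 2) ≤ 2 / 10 ^ 17 * (m / 2 * (1 / 2) ^ 2) :=
      mul_le_mul_of_nonneg_left a4 (by norm_num)
    linarith
  have e5 : K * (F * K ^ 2) * Λ - (K - 2) * Λ * (f - K / n) =
      Λ * (K * (F * K ^ 2) - (K - 2) * (f - K / n)) := by ring
  rw [e5]
  have a8 : Λ * (K * (F * K ^ 2) - (K - 2) * (f - K / n)) ≤ Λ * (2 / 10 ^ 17 * m / 8 + 1) :=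
    mul_le_mul_of_nonneg_left a7 hΛ0
  have a9 : Λ * (2 / 10 ^ 17 * m / 8 + 1) ≤ 1 / 2 * (2 / 10 ^ 17 * m / 8 + 1) :=
    mul_le_mul_of_nonneg_right hΛ1 (by positivity)
  linarith

theorem final_num {m K p n b S s1 hh Λ Γ Θ F f : ℝ}
    (hm : (10 : ℝ) ^ 20 ≤ m) (hK1 : m / 4 ≤ K - 1) (hK2 : K ≤ m / 2)
    (hp1 : m / 20000 - 1 ≤ p) (hp2 : p ≤ m / 20000)
    (hn : 10000 * m ^ 2 ≤ n) (hb : 1 / (4000 * m) ≤ b) (hΛ0 : 0 ≤ Λ) (hΛ1 : Λ ≤ 1 / 2)
    (hΓ : 1 / 12 ≤ Γ) (hΘ0 : 1 / 12 ≤ Θ) (hΘ1 : Θ ≤ 1)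
    (hF : F ≤ (1 + 2 / 10 ^ 17) / m ^ 2) (hf1 : K * (K - 1) / m ^ 2 ≤ f) (hf2 : f ≤ 26 / 100)
    (hS : 0 < S) (hs0 : 0 ≤ s1) (hh0 : S / 120 ≤ hh)
    (star1 : (K - 2) * Λ * (S * (f - K / n)) +
      s1 * (13 / 5000000 * (K - 2) * Γ * p * b - 2 * (13 / 5000000) * Θ -
        (13 / 5000000) ^ 2 * p) ≤ S * (K * (F * K ^ 2) * Λ))
    (star2 : (K - 2 - 2 * p) * Λ * (S * (f - K / n)) +
      (K - 2 - 2 * p) * (Θ / 2) * (hh - s1) - S * (p / 2) ≤ S * (K * (F * K ^ 2) * Λ)) :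
    False := by
  have hD := loss_le hm hK1 hK2 hn hΛ0 hΛ1 hF hf1
  have hm1 : (10 : ℝ) ^ 20 ≤ m := hm
  have hm2 : (1000000 : ℝ) ≤ m := le_trans (by norm_num) hm
  have hm0 : 0 < m := by linarith
  have hK0 : 0 < K := by linarith
  have hn0 : 0 < n := by
    have : 0 < 10000 * m ^ 2 := by positivity
    linarith
  have hp0 : 0 ≤ p := by linarith
  obtain ⟨D, hDdef⟩ : ∃ D : ℝ, D = K * (F * K ^ 2) * Λ - (K - 2) * Λ * (f - K / n) := ⟨_, rfl⟩
  rw [← hDdef] at hD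
  by_cases hμ : S / 240 < s1
  · -- many matchings
    have hg : 33 / 10 ^ 17 * m + 0 ≤ 13 / 5000000 * (K - 2) * Γ * p * b - 2 * (13 / 5000000) * Θ -
        (13 / 5000000) ^ 2 * p := by
      have c1 : 2499 / 10000 / (4000 : ℝ) ≤ (K - 2) * b := by
        have h1 : (K - 2) * (1 / (4000 * m)) ≤ (K - 2) * b :=
          mul_le_mul_of_nonneg_left hb (by linarith)
        refine le_trans ?_ h1
        rw [mul_one_div, div_div, div_le_div_iff₀ (by positivity) (by positivity)]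
        nlinarith
      have c2 : 2499 / 10000 / (4000 : ℝ) * (1 / 12) ≤ (K - 2) * b * Γ :=
        mul_le_mul c1 hΓ (by norm_num) (le_trans (by norm_num) c1)
      have c3 : 2499 / 10000 / (4000 : ℝ) * (1 / 12) * p ≤ (K - 2) * b * Γ * p :=
        mul_le_mul_of_nonneg_right c2 hp0
      have e : 13 / 5000000 * (K - 2) * Γ * p * b = 13 / 5000000 * ((K - 2) * b * Γ * p) := by ring
      rw [e]
      nlinarith
    have h1 : S / 240 * (33 / 10 ^ 17 * m + 0) ≤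
        s1 * (13 / 5000000 * (K - 2) * Γ * p * b - 2 * (13 / 5000000) * Θ -
        (13 / 5000000) ^ 2 * p) :=
      mul_le_mul hμ.le hg (by positivity) hs0
    have h2 : S * (K * (F * K ^ 2) * Λ) - (K - 2) * Λ * (S * (f - K / n)) = S * D := by
      rw [hDdef]; ring
    have h3 : S / 240 * (33 / 10 ^ 17 * m + 0) ≤ S * D := by linarith
    have h4 : S * ((33 / 10 ^ 17 * m + 0) / 240) ≤ S * D := by linarith
    have h5 := le_of_mul_le_mul_left h4 hS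
    norm_num at h5 hD hm1
    linarith
  · rw [not_lt] at hμ
    have hc : f - K / n ≤ 26 / 100 := by
      have : 0 ≤ K / n := by positivity
      linarith
    have hKp : 2498 / 10000 * m ≤ K - 2 - 2 * p := by linarith
    have h1 : (2498 / 10000 * m) * (1 / 24) ≤ (K - 2 - 2 * p) * (Θ / 2) :=
      mul_le_mul hKp (by linarith) (by norm_num) (by nlinarith)
    have h2 : (2498 / 10000 * m) * (1 / 24) * (S / 240) ≤
        (K - 2 - 2 * p) * (Θ / 2) * (hh - s1) :=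
      mul_le_mul h1 (by linarith) (by positivity) (le_trans (by positivity) h1)
    have h3 : S * (K * (F * K ^ 2) * Λ) - (K - 2 - 2 * p) * Λ * (S * (f - K / n)) =
        S * (D + 2 * p * Λ * (f - K / n)) := by
      rw [hDdef]; ring
    have h4 : 2 * p * Λ * (f - K / n) ≤ 2 * p * (1 / 2) * (26 / 100) := by
      have h5 : 2 * p * Λ * (f - K / n) ≤ 2 * p * Λ * (26 / 100) :=
        mul_le_mul_of_nonneg_left hc (by positivity)
      have h6 : 2 * p * Λ ≤ 2 * p * (1 / 2) := mul_le_mul_of_nonneg_left hΛ1 (by positivity)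
      nlinarith
    have h7 : S * ((2498 / 10000 * m) * (1 / 24) / 240) ≤
        S * (D + 2 * p * Λ * (f - K / n) + p / 2) := by
      have e : S * (D + 2 * p * Λ * (f - K / n) + p / 2) =
        S * (D + 2 * p * Λ * (f - K / n)) + S * (p / 2) := by ring
      rw [e, ← h3]
      linarith
    have h8 := le_of_mul_le_mul_left h7 hS
    norm_num at h8 hD hm1
    linarith

end Pool.Agent.H666.TK
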