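import Pool.Agent.H666.TK.Goods

/-!
# The two averaged inequalities
-/

set_option autoImplicit false
set_option linter.unusedSectionVars false

open Finset
open scoped Classical

namespace Pool.Agent.H666.TK

noncomputable section

variable {V : Type} [Fintype V] [DecidableEq V] {H : Finset (Finset V)}

theorem sum_Cov (ha : S_avg) (h1 : S_sum1) {K : ℕ} (hK : 1 ≤ K) (hN : 0 < N H K) :
    ∑ v ∈ Seq H K, ((Cov H (univ.image v)).card : ℝ) =
      (Seq H K).card * ((Fintype.card V : ℝ) * fb H K - K) := by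
  have hn : 0 < Fintype.card V := card_pos_of_N hK hN
  have hn' : (0 : ℝ) < Fintype.card V := by exact_mod_cast hn
  have hN' : (0 : ℝ) < N H K := by exact_mod_cast hN
  rw [ha V H K (fun L => ((Cov H L).card : ℝ)), card_Seq ha, mul_assoc]
  congr 1
  have h2 : ∀ L ∈ Cs H K, ((Cov H L).card : ℝ) = (Fintype.card V : ℝ) - K - e H L := by
    intro L hL
    have h := card_Cov (H := H) (L := L)
    rw [(mem_Cs.1 hL).1] at h
    have h' : ((Cov H L).card : ℝ) + (K + e H L) = Fintype.card V := by exact_mod_cast h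
    linarith
  rw [sum_congr rfl h2, sum_sub_distrib, sum_const, nsmul_eq_mul]
  have h3 : ∑ L ∈ Cs H K, (e H L : ℝ) = (K + 1) * N H (K + 1) := by
    have := h1 V H K
    exact_mod_cast this
  rw [h3]
  have h4 : ((Cs H K).card : ℝ) = N H K := rfl
  rw [h4]
  unfold fb Eb
  field_simp
  ring

theorem sum_hs (ha : S_avg) (K B : ℕ) :
    ∑ v ∈ Seq H K, (hs H B (univ.image v) : ℝ) = (K.factorial : ℝ) * HS H B K := by
  rw [ha V H K (fun L => (hs H B L : ℝ))]
  congr 1
  unfold HS hs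
  push_cast
  rfl

theorem hs_le (B : ℕ) (L : Finset V) : hs H B L ≤ Fintype.card V := by
  have h : hs H B L = ((L.powersetCard 2 |>.filter
      (fun P => B ≤ sg H L P)).biUnion fun P =>
      univ.filter fun x => x ∉ L ∧ lk H L x = {P}).card := by
    rw [card_biUnion]
    · rfl
    · intro P _ P' _ hPP
      simp only [Function.onFun]
      rw [disjoint_left]
      intro x hx hx'
      simp only [mem_filter, mem_univ, true_and] at hx hx'
      have h1 := hx.2.symm.trans hx'.2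
      rw [singleton_inj] at h1
      exact hPP h1
  rw [h]
  exact card_le_univ _

theorem Cov_le (L : Finset V) : (Cov H L).card ≤ Fintype.card V := card_le_univ _

/-- The ordered cliques with a large matching of heavy pairs. -/
def Mat (H : Finset (Finset V)) (K p B : ℕ) (v : Fin K → V) : Prop :=
  ∃ a b : Fin p → Fin K, Function.Injective (Sum.elim a b) ∧
      ∀ l, a l ≠ b l ∧ B ≤ sg H (univ.image v) {v (a l), v (b l)}

theorem Mat_or (hd : S_dich) (K p B : ℕ) (v : Fin K → V) :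
    Mat H K p B v ∨ ∃ A : Finset (Fin K), A.card ≤ 2 * p ∧
      ∀ i j, i ≠ j → B ≤ sg H (univ.image v) {v i, v j} → i ∈ A ∨ j ∈ A := by
  rcases hd (Fin K) (fun i j => i ≠ j ∧ B ≤ sg H (univ.image v) {v i, v j}) p
    (fun i j h => h.1) with h | ⟨A, hA, h⟩
  · exact Or.inl h
  · exact Or.inr ⟨A, hA, fun i j h1 h2 => h i j ⟨h1, h2⟩⟩

/-- **First averaged inequality.** -/
theorem star1 (ha : S_avg) (hT1 : S_T1) (hg : S_gibbs) (hpt : S_point) (hnum : S_num)
    (h1 : S_sum1) (hw1 : S_w1) (he1 : S_e1) (hw2 : S_w2) (he2 : S_e2)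
    {K p B : ℕ} {θ F : ℝ} (hK : 2 ≤ K) (hN : 0 < N H K) (hθ0 : 0 ≤ θ) (hθ1 : θ < 1)
    (hF0 : 0 ≤ F) (hF : F * (K : ℝ) ^ 2 ≤ 27 / 100)
    (hfb : ∀ i, i < K → fb H i ≤ F * (i : ℝ) ^ 2) :
    ((K : ℝ) - 2) * Lam K (lam (F * (K : ℝ) ^ 2) (2 * K)) *
        ((Seq H K).card * (fb H K - K / Fintype.card V)) +
      (((Seq H K).filter fun v => Mat H K p B v).card : ℝ) *
        (θ * ((K : ℝ) - 2) * Gam K (lam (F * (K : ℝ) ^ 2) (2 * K)) * p * (B / Fintype.card V) -
          2 * θ * The K (lam (F * (K : ℝ) ^ 2) (2 * K)) - θ ^ 2 * p) ≤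
      ((Seq H K).card : ℝ) * (K * (F * (K : ℝ) ^ 2) * Lam K (lam (F * (K : ℝ) ^ 2) (2 * K))) := by
  have hn : 0 < Fintype.card V := card_pos_of_N (by omega) hN
  have hn' : (0 : ℝ) < Fintype.card V := by exact_mod_cast hn
  have hρ0 : 0 ≤ F * (K : ℝ) ^ 2 := by positivity
  have ht := tilt (H := H) ha hT1 hg hpt hnum (K := K) (by omega) hN hF0 hF hfb
  have hsc := sum_Cov (H := H) ha h1 (K := K) (by omega) hN
  obtain ⟨ρ, hρ⟩ : ∃ ρ : ℝ, ρ = F * (K : ℝ) ^ 2 := ⟨_, rfl⟩
  rw [← hρ] at hF hρ0 ht ⊢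
  obtain ⟨n1, n2, n3, n4, n5, n6, n7, n8⟩ := hnum K ρ (by omega) hρ0 hF
  have ht' := ht (fun v => if Mat H K p B v then θ ^ 2 * p else 0)
    (fun v => if Mat H K p B v then
      (((Cov H (univ.image v)).card : ℝ) * (((K : ℝ) - 2) * Lam K (lam ρ (2 * K)) -
        2 * θ * The K (lam ρ (2 * K))) + p * B * (((K : ℝ) - 2) * (θ * Gam K (lam ρ (2 * K)))))
      else (((K : ℝ) - 2) * (((Cov H (univ.image v)).card : ℝ) * Lam K (lam ρ (2 * K)))))
    (fun v hv => by
      by_cases hM : Mat H K p B v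
      · simp only [if_pos hM]
        exact good_match hw1 he1 hnum hK hρ0 hF hθ0 hθ1 hv hM
      · simp only [if_neg hM]
        exact good_unif hw2 he2 hnum hK hρ0 hF hv)
  refine le_trans ?_ ht'
  have hterm : ∀ v ∈ Seq H K,
      ((K : ℝ) - 2) * Lam K (lam ρ (2 * K)) / Fintype.card V * (Cov H (univ.image v)).card +
        (if Mat H K p B v then
        (θ * ((K : ℝ) - 2) * Gam K (lam ρ (2 * K)) * p * (B / Fintype.card V) -
          2 * θ * The K (lam ρ (2 * K)) - θ ^ 2 * p) else 0) ≤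
      (if Mat H K p B v then
      (((Cov H (univ.image v)).card : ℝ) * (((K : ℝ) - 2) * Lam K (lam ρ (2 * K)) -
        2 * θ * The K (lam ρ (2 * K))) + p * B * (((K : ℝ) - 2) * (θ * Gam K (lam ρ (2 * K)))))
      else (((K : ℝ) - 2) * (((Cov H (univ.image v)).card : ℝ) * Lam K (lam ρ (2 * K))))) /
        Fintype.card V - (if Mat H K p B v then θ ^ 2 * p else 0) := by
    intro v _
    by_cases hM : Mat H K p B v
    · simp only [if_pos hM]
      have h3 : ((Cov H (univ.image v)).card : ℝ) / Fintype.card V ≤ 1 := by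
        rw [div_le_one hn']
        exact_mod_cast Cov_le _
      have h4 : 0 ≤ 2 * θ * The K (lam ρ (2 * K)) := by
        have : 0 ≤ The K (lam ρ (2 * K)) := by linarith
        positivity
      have h5 := mul_le_mul_of_nonneg_left h3 h4
      have e1 : ((((Cov H (univ.image v)).card : ℝ) * (((K : ℝ) - 2) * Lam K (lam ρ (2 * K)) -
        2 * θ * The K (lam ρ (2 * K))) + p * B * (((K : ℝ) - 2) * (θ * Gam K (lam ρ (2 * K)))))) /
        Fintype.card V = ((K : ℝ) - 2) * Lam K (lam ρ (2 * K)) / Fintype.card V *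
          (Cov H (univ.image v)).card -
          2 * θ * The K (lam ρ (2 * K)) * (((Cov H (univ.image v)).card : ℝ) / Fintype.card V) +
          θ * ((K : ℝ) - 2) * Gam K (lam ρ (2 * K)) * p * (B / Fintype.card V) := by
        field_simp
      rw [e1]
      linarith
    · simp only [if_neg hM]
      refine le_of_eq ?_
      field_simp
      ring
  refine le_trans (le_of_eq ?_) (sum_le_sum hterm)
  rw [sum_add_distrib, ← mul_sum, hsc, ← sum_filter, sum_const, nsmul_eq_mul]
  congr 1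
  field_simp

/-- **Second averaged inequality.** -/
theorem star2 (ha : S_avg) (hT1 : S_T1) (hg : S_gibbs) (hpt : S_point) (hnum : S_num)
    (h1 : S_sum1) (hd : S_dich) (hw2 : S_w2) (he2 : S_e2)
    {K p B : ℕ} {F : ℝ} (hK : 2 * p + 2 ≤ K) (hN : 0 < N H K)
    (hF0 : 0 ≤ F) (hF : F * (K : ℝ) ^ 2 ≤ 27 / 100)
    (hfb : ∀ i, i < K → fb H i ≤ F * (i : ℝ) ^ 2) :
    ((K : ℝ) - 2 - 2 * p) * Lam K (lam (F * (K : ℝ) ^ 2) (2 * K)) *
        ((Seq H K).card * (fb H K - K / Fintype.card V)) +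
      ((K : ℝ) - 2 - 2 * p) * (The K (lam (F * (K : ℝ) ^ 2) (2 * K)) / 2) *
        ((K.factorial : ℝ) * HS H B K / Fintype.card V -
          (((Seq H K).filter fun v => Mat H K p B v).card : ℝ)) -
        (Seq H K).card * ((p : ℝ) / 2) ≤
      ((Seq H K).card : ℝ) * (K * (F * (K : ℝ) ^ 2) * Lam K (lam (F * (K : ℝ) ^ 2) (2 * K))) := by
  have hn : 0 < Fintype.card V := card_pos_of_N (by omega) hN
  have hn' : (0 : ℝ) < Fintype.card V := by exact_mod_cast hn
  have hρ0 : 0 ≤ F * (K : ℝ) ^ 2 := by positivity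
  have ht := tilt (H := H) ha hT1 hg hpt hnum (K := K) (by omega) hN hF0 hF hfb
  have hsc := sum_Cov (H := H) ha h1 (K := K) (by omega) hN
  have hsh := sum_hs (H := H) ha K B
  obtain ⟨ρ, hρ⟩ : ∃ ρ : ℝ, ρ = F * (K : ℝ) ^ 2 := ⟨_, rfl⟩
  rw [← hρ] at hF hρ0 ht ⊢
  obtain ⟨n1, n2, n3, n4, n5, n6, n7, n8⟩ := hnum K ρ (by omega) hρ0 hF
  have ht' := ht (fun v => if Mat H K p B v then 0 else (p : ℝ) / 2)
    (fun v => if Mat H K p B v then
      (((K : ℝ) - 2) * (((Cov H (univ.image v)).card : ℝ) * Lam K (lam ρ (2 * K))))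
      else (((K : ℝ) - 2 - 2 * p) * (((Cov H (univ.image v)).card : ℝ) * Lam K (lam ρ (2 * K)) +
        The K (lam ρ (2 * K)) / 2 * hs H B (univ.image v))))
    (fun v hv => by
      by_cases hM : Mat H K p B v
      · simp only [if_pos hM]
        exact good_unif hw2 he2 hnum (by omega) hρ0 hF hv
      · simp only [if_neg hM]
        obtain ⟨A, hA, hA'⟩ := (Mat_or (H := H) hd K p B v).resolve_left hM
        exact good_cover hw2 he2 hnum (by omega) hρ0 hF hK hv A hA hA')
  refine le_trans ?_ ht'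
  have hK2 : (0 : ℝ) ≤ (K : ℝ) - 2 - 2 * p := by
    have : ((2 * p + 2 : ℕ) : ℝ) ≤ K := by exact_mod_cast hK
    push_cast at this
    linarith
  have hThe : 0 ≤ The K (lam ρ (2 * K)) := by linarith
  have hterm : ∀ v ∈ Seq H K,
      ((K : ℝ) - 2 - 2 * p) * Lam K (lam ρ (2 * K)) / Fintype.card V *
        (Cov H (univ.image v)).card +
      ((K : ℝ) - 2 - 2 * p) * (The K (lam ρ (2 * K)) / 2) * (1 / Fintype.card V) *
        hs H B (univ.image v) -
      (if Mat H K p B v then ((K : ℝ) - 2 - 2 * p) * (The K (lam ρ (2 * K)) / 2) else 0) -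
      (p : ℝ) / 2 ≤
      (if Mat H K p B v then
      (((K : ℝ) - 2) * (((Cov H (univ.image v)).card : ℝ) * Lam K (lam ρ (2 * K))))
      else (((K : ℝ) - 2 - 2 * p) * (((Cov H (univ.image v)).card : ℝ) * Lam K (lam ρ (2 * K)) +
        The K (lam ρ (2 * K)) / 2 * hs H B (univ.image v)))) /
        Fintype.card V - (if Mat H K p B v then 0 else (p : ℝ) / 2) := by
    intro v _
    by_cases hM : Mat H K p B v
    · simp only [if_pos hM]
      have h3 : (1 / Fintype.card V : ℝ) * (hs H B (univ.image v) : ℝ) ≤ 1 := by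
        rw [one_div, inv_mul_le_one₀ hn']
        exact_mod_cast hs_le _ _
      have h4 : 0 ≤ ((K : ℝ) - 2 - 2 * p) * (The K (lam ρ (2 * K)) / 2) := by positivity
      have h5 := mul_le_mul_of_nonneg_left h3 h4
      have h6 : 0 ≤ Lam K (lam ρ (2 * K)) / Fintype.card V * (Cov H (univ.image v)).card := by
        positivity
      have h7 : (0 : ℝ) ≤ p := Nat.cast_nonneg _
      have h8 : 0 ≤ 2 * (p : ℝ) * (Lam K (lam ρ (2 * K)) / Fintype.card V *
        (Cov H (univ.image v)).card) := by positivity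
      have e1 : ((K : ℝ) - 2) * (((Cov H (univ.image v)).card : ℝ) * Lam K (lam ρ (2 * K))) /
        Fintype.card V = ((K : ℝ) - 2 - 2 * p) * Lam K (lam ρ (2 * K)) / Fintype.card V *
        (Cov H (univ.image v)).card + 2 * (p : ℝ) * (Lam K (lam ρ (2 * K)) / Fintype.card V *
        (Cov H (univ.image v)).card) := by
        field_simp
        ring
      rw [e1]
      linarith
    · simp only [if_neg hM]
      refine le_of_eq ?_
      field_simp
      ring
  refine le_trans (le_of_eq ?_) (sum_le_sum hterm)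
  rw [sum_sub_distrib, sum_sub_distrib, sum_add_distrib, ← mul_sum, ← mul_sum, hsc, hsh,
    ← sum_filter, sum_const, sum_const, nsmul_eq_mul, nsmul_eq_mul]
  field_simp
  ring

end

end Pool.Agent.H666.TK
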