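import Mathlib

set_option autoImplicit false

namespace Pool.Agent.H666.TK

/-- The numerical core of the structure lemma, in units `y = n / m`. -/
theorem struct_core {n y N0 NK NK1 NK2 T0 T1 TL0 TL1 P0 P1 C0 C1 C2 Q B : ℝ}
    (hn : 0 < n) (hy : 4000 ≤ y) (hN0 : 0 < N0) (hNK : 0 < NK)
    (h1 : TL0 ^ 2 ≤ n * N0 * Q)
    (h2 : Q ≤ 2 * B * TL0 + 2 * B * P0 + 3 * B ^ 2 * T0 + P1)
    (h3 : P0 ≤ 2 * B * C0 + C1 + B * TL0)
    (h4 : P1 ≤ 2 * B * C1 + C2 + B * TL1)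
    (h5 : C0 ≤ 8 * (1 / 100000) * (n * NK)) (h5' : C1 ≤ 8 * (1 / 100000) * (n * NK1))
    (h5'' : C2 ≤ 8 * (1 / 100000) * (n * NK2))
    (h6 : TL0 ≤ T0) (h6' : TL1 ≤ T1) (h6'' : T0 ≤ 2 / 3 * (n * NK)) (h6''' : T1 ≤ 2 / 3 * (n * NK1))
    (h7 : NK1 ≤ 4 * y * NK) (h7' : NK2 ≤ 4 * y * NK1)
    (hB0 : 0 ≤ B) (hB : B ≤ y / 2000) (h9 : 2 / 17 * (n * NK) ≤ T0)
    (h10 : 2 * y ^ 2 * N0 ≤ NK)
    (hC0 : 0 ≤ C0) (hC1 : 0 ≤ C1) (hT0 : 0 ≤ TL0) (hT1 : 0 ≤ TL1) (hP0 : 0 ≤ P0) :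
    TL0 < T0 / 2 := by
  by_contra hcon
  rw [not_lt] at hcon
  have hy0 : 0 < y := by linarith
  set X : ℝ := n * NK with hX
  have hX0 : 0 < X := by positivity
  have hn1 : n * NK1 ≤ 4 * y * X := by rw [hX]; nlinarith
  have hn2 : n * NK2 ≤ 16 * y ^ 2 * X := by
    have : n * NK2 ≤ 4 * y * (n * NK1) := by nlinarith
    nlinarith
  have hyX : 0 < y * X := by positivity
  have hy2X : 0 < y ^ 2 * X := by positivity
  have c1 : C1 ≤ 32 * (1 / 100000) * (y * X) := by nlinarith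
  have c2 : C2 ≤ 128 * (1 / 100000) * (y ^ 2 * X) := by nlinarith
  have t1 : TL1 ≤ 8 / 3 * (y * X) := by nlinarith
  have t0 : TL0 ≤ 2 / 3 * X := by linarith
  -- P0
  have p0a : B * C0 ≤ y / 2000 * (8 * (1 / 100000) * X) :=
    mul_le_mul hB h5 hC0 (by positivity)
  have p0b : B * TL0 ≤ y / 2000 * (2 / 3 * X) := mul_le_mul hB t0 hT0 (by positivity)
  have p0 : P0 ≤ (7 / 10000) * (y * X) := by nlinarith
  -- P1
  have p1a : B * C1 ≤ y / 2000 * (32 * (1 / 100000) * (y * X)) :=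
    mul_le_mul hB c1 hC1 (by positivity)
  have p1b : B * TL1 ≤ y / 2000 * (8 / 3 * (y * X)) := mul_le_mul hB t1 hT1 (by positivity)
  have p1 : P1 ≤ (262 / 100000) * (y ^ 2 * X) := by nlinarith
  -- Q
  have q1 : B * P0 ≤ y / 2000 * ((7 / 10000) * (y * X)) := mul_le_mul hB p0 hP0 (by positivity)
  have q2 : B ^ 2 * T0 ≤ (y / 2000) ^ 2 * (2 / 3 * X) :=
    mul_le_mul (pow_le_pow_left₀ hB0 hB 2) h6'' (by linarith) (by positivity)
  have q3 : y * X ≤ y ^ 2 * X / 4000 := by nlinarith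
  have q : Q ≤ (264 / 100000) * (y ^ 2 * X) := by nlinarith
  have hQ : n * N0 * Q ≤ n * N0 * ((264 / 100000) * (y ^ 2 * X)) :=
    mul_le_mul_of_nonneg_left q (by positivity)
  have hT : (X / 17) ^ 2 ≤ TL0 ^ 2 := pow_le_pow_left₀ (by positivity) (by linarith) 2
  have h11 : (X / 17) ^ 2 ≤ n * N0 * ((264 / 100000) * (y ^ 2 * X)) := by linarith
  have h12 : X / 289 ≤ n * N0 * ((264 / 100000) * y ^ 2) := by
    have : X * (X / 289) ≤ X * (n * N0 * ((264 / 100000) * y ^ 2)) := by nlinarith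
    exact le_of_mul_le_mul_left this hX0
  have h13 : n * (2 * y ^ 2 * N0) ≤ X := by rw [hX]; exact mul_le_mul_of_nonneg_left h10 hn.le
  have h14 : 0 < n * N0 * y ^ 2 := by positivity
  nlinarith

end Pool.Agent.H666.TK
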