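import Pool.Agent.H666.TK.Chain
import Pool.Agent.H666.TK.StructNum

/-!
# The structure lemma: near equality in the chain forces heavy pairs
-/

set_option autoImplicit false
set_option linter.unusedSectionVars false

open Finset
open scoped Classical

namespace Pool.Agent.H666.TK

noncomputable section

variable {V : Type} [Fintype V] [DecidableEq V] {H : Finset (Finset V)}

theorem QQ_le (h12 : S_q12) (h34 : S_q34) (h567 : S_q567) (h8 : S_q8) (B k : ℕ) :
    (QQ H B k).card ≤ 2 * B * (TL H B k).card + 2 * B * (PP H B k).card +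
      3 * B ^ 2 * (TT H k).card + (PP H B (k + 1)).card := by
  obtain ⟨a1, a2⟩ := h12 V H B k
  obtain ⟨a3, a4⟩ := h34 V H B k
  obtain ⟨a5, a6, a7⟩ := h567 V H B k
  have a8 := h8 V H B k
  have hsub : QQ H B k ⊆
      ((QQ H B k).filter fun p => p.2.2.2.2.1 = p.2.1) ∪
      (((QQ H B k).filter fun p => p.2.2.2.2.1 = p.2.2.1) ∪
      (((QQ H B k).filter fun p => AD H p.1 p.2.1 p.2.2.2.2.1) ∪
      (((QQ H B k).filter fun p => AD H p.1 p.2.2.1 p.2.2.2.2.1) ∪
      (((QQ H B k).filter fun p => Tr H p.1 p.2.2.2.2.1 p.2.1 p.2.2.1) ∪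
      (((QQ H B k).filter fun p => Tr H p.1 p.2.2.2.2.1 p.2.1 p.2.2.2.1) ∪
      (((QQ H B k).filter fun p => Tr H p.1 p.2.2.2.2.1 p.2.2.1 p.2.2.2.1) ∪
      ((QQ H B k).filter fun p => p.2.2.2.2.1 ≠ p.2.1 ∧ p.2.2.2.2.1 ≠ p.2.2.1 ∧
      ¬ AD H p.1 p.2.1 p.2.2.2.2.1 ∧ ¬ AD H p.1 p.2.2.1 p.2.2.2.2.1 ∧
      ¬ Tr H p.1 p.2.2.2.2.1 p.2.1 p.2.2.1 ∧ ¬ Tr H p.1 p.2.2.2.2.1 p.2.1 p.2.2.2.1 ∧
      ¬ Tr H p.1 p.2.2.2.2.1 p.2.2.1 p.2.2.2.1))))))) := by
    intro p hp
    simp only [mem_union, mem_filter, hp, true_and]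
    tauto
  have h := card_le_card hsub
  refine h.trans ?_
  refine (card_union_le _ _).trans ?_
  refine (Nat.add_le_add_left (card_union_le _ _) _).trans ?_
  refine (Nat.add_le_add_left (Nat.add_le_add_left (card_union_le _ _) _) _).trans ?_
  refine (Nat.add_le_add_left (Nat.add_le_add_left (Nat.add_le_add_left
    (card_union_le _ _) _) _) _).trans ?_
  refine (Nat.add_le_add_left (Nat.add_le_add_left (Nat.add_le_add_left (Nat.add_le_add_left
    (card_union_le _ _) _) _) _) _).trans ?_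
  refine (Nat.add_le_add_left (Nat.add_le_add_left (Nat.add_le_add_left (Nat.add_le_add_left
    (Nat.add_le_add_left (card_union_le _ _) _) _) _) _) _).trans ?_
  refine (Nat.add_le_add_left (Nat.add_le_add_left (Nat.add_le_add_left (Nat.add_le_add_left
    (Nat.add_le_add_left (Nat.add_le_add_left (card_union_le _ _) _) _) _) _) _) _).trans ?_
  nlinarith

theorem PP_le (h12 : S_p12) (h3 : S_p3) (h4 : S_p4) (B k : ℕ) :
    (PP H B k).card ≤ 2 * B * (CH H k).card + (CH H (k + 1)).card + B * (TL H B k).card := by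
  obtain ⟨a1, a2⟩ := h12 V H B k
  have a3 := h3 V H B k
  have a4 := h4 V H B k
  have hsub : PP H B k ⊆
      ((PP H B k).filter fun p => AD H p.1 p.2.2.2.2 p.2.1) ∪
      (((PP H B k).filter fun p => AD H p.1 p.2.2.2.2 p.2.2.1) ∪
      (((PP H B k).filter fun p => ¬ AD H p.1 p.2.2.2.2 p.2.1 ∧ ¬ AD H p.1 p.2.2.2.2 p.2.2.1 ∧
        AD H (insert p.2.1 p.1) p.2.2.1 p.2.2.2.2) ∪
      ((PP H B k).filter fun p => ¬ AD H p.1 p.2.2.2.2 p.2.1 ∧ ¬ AD H p.1 p.2.2.2.2 p.2.2.1 ∧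
        ¬ AD H (insert p.2.1 p.1) p.2.2.1 p.2.2.2.2))) := by
    intro p hp
    simp only [mem_union, mem_filter, hp, true_and]
    tauto
  have h := card_le_card hsub
  refine h.trans ?_
  refine (card_union_le _ _).trans ?_
  refine (Nat.add_le_add_left (card_union_le _ _) _).trans ?_
  refine (Nat.add_le_add_left (Nat.add_le_add_left (card_union_le _ _) _) _).trans ?_
  nlinarith

theorem TL_le_TT (B k : ℕ) : (TL H B k).card ≤ (TT H k).card := by
  refine card_le_card fun p hp => ?_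
  simp only [TL, TT, mem_filter, mem_univ, true_and] at hp ⊢
  exact ⟨hp.1, hp.2.1⟩

/-- Sum of the partition of the vertices. -/
theorem part_sum (hp : S_part) (h1 : S_sum1) (k : ℕ) :
    Fintype.card V * N H k = k * N H k + (k + 1) * N H (k + 1) + SS H k + DS H k := by
  have h : ∑ L ∈ Cs H k, Fintype.card V =
      ∑ L ∈ Cs H k, (L.card + e H L + Sg H L + Dd H L) :=
    sum_congr rfl fun L hL => hp V H L (mem_Cs.1 hL).2
  rw [sum_add_distrib, sum_add_distrib, sum_add_distrib, h1 V H k] at h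
  have h2 : ∑ L ∈ Cs H k, L.card = k * N H k := by
    rw [sum_congr rfl fun L hL => (mem_Cs.1 hL).1, sum_const, smul_eq_mul, mul_comm]
    rfl
  rw [h2, sum_const, smul_eq_mul, mul_comm] at h
  exact h

/-- The number of larger cliques. -/
theorem N_succ_le (h1 : S_sum1) (k : ℕ) : (k + 1) * N H (k + 1) ≤ Fintype.card V * N H k := by
  rw [← h1 V H k]
  calc ∑ K ∈ Cs H k, e H K ≤ ∑ K ∈ Cs H k, Fintype.card V :=
        sum_le_sum fun K _ => card_le_univ _
    _ = _ := by rw [sum_const, smul_eq_mul, mul_comm]; rfl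

/-- **The structure lemma.** -/
theorem structure_lemma
    (hpart : S_part) (h1 : S_sum1) (hcs : S_cs)
    (h12 : S_q12) (h34 : S_q34) (h567 : S_q567) (h8 : S_q8)
    (hp12 : S_p12) (hp3 : S_p3) (hp4 : S_p4) (hch : S_ch) (htau : S_tau) (hheavy : S_heavy)
    (hhv : S_hv) {k : ℕ} {m : ℝ} {B : ℕ} (hm : 0 < m)
    (hn : 10000 * (m + m ^ 2) ≤ Fintype.card V)
    (hk1 : m / 4 ≤ (k : ℝ) + 1) (hk2 : (k : ℝ) + 2 ≤ m / 2)
    (hN : 0 < N H (k + 4))
    (hB : (B : ℝ) ≤ Fintype.card V / (2000 * m))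
    (hE0 : 74 / 100 ≤ Eb H k) (hE1 : 74 / 100 ≤ Eb H (k + 1))
    (hf2 : fb H (k + 2) ≤ 1 / 3) (hf3 : fb H (k + 3) ≤ 1 / 3) (hf2' : 1 / 16 ≤ fb H (k + 2))
    (hD2 : Db H (k + 2) ≤ 1 / 100000) (hD3 : Db H (k + 3) ≤ 1 / 100000)
    (hD4 : Db H (k + 4) ≤ 1 / 100000) :
    (Fintype.card V : ℝ) * N H (k + 2) / 120 ≤ HS H B (k + 2) := by
  have hN3 : 0 < N H (k + 3) := N_pos_of_succ hN
  have hN2 : 0 < N H (k + 2) := N_pos_of_succ hN3
  have hN1 : 0 < N H (k + 1) := N_pos_of_succ hN2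
  have hN0 : 0 < N H k := N_pos_of_succ hN1
  have hnpos : 0 < Fintype.card V := card_pos_of_N (by omega) hN1
  obtain ⟨n, hndef⟩ : ∃ n : ℝ, n = (Fintype.card V : ℝ) := ⟨_, rfl⟩
  rw [← hndef] at hn hB ⊢
  have hn0 : 0 < n := by rw [hndef]; exact_mod_cast hnpos
  have N0 : (0 : ℝ) < N H k := by exact_mod_cast hN0
  have N1 : (0 : ℝ) < N H (k + 1) := by exact_mod_cast hN1
  have N2 : (0 : ℝ) < N H (k + 2) := by exact_mod_cast hN2
  have N3 : (0 : ℝ) < N H (k + 3) := by exact_mod_cast hN3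
  have N4 : (0 : ℝ) < N H (k + 4) := by exact_mod_cast hN
  -- real versions of the counting facts
  have d : ∀ j : ℕ, 0 < N H j → Db H j ≤ 1 / 100000 → (DS H j : ℝ) ≤ 1 / 100000 * (n * N H j) := by
    intro j hj hD
    have hj' : (0 : ℝ) < N H j := by exact_mod_cast hj
    unfold Db at hD
    rw [← hndef] at hD
    rwa [div_le_iff₀ (by positivity)] at hD
  have d2 := d (k + 2) hN2 hD2
  have d3 := d (k + 3) hN3 hD3
  have d4 := d (k + 4) hN hD4
  have pf : ∀ j : ℕ, 0 < N H j → (((j : ℝ) + 1) * N H (j + 1)) = n * N H j * (1 - fb H j) := by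
    intro j hj
    have hj' : (0 : ℝ) < N H j := by exact_mod_cast hj
    unfold fb Eb
    rw [← hndef]
    field_simp
    ring
  have ps : ∀ j : ℕ, n * N H j = j * N H j + ((j : ℝ) + 1) * N H (j + 1) + SS H j + DS H j := by
    intro j
    have := part_sum (H := H) hpart h1 j
    rw [hndef]
    exact_mod_cast this
  have ss2 : (SS H (k + 2) : ℝ) ≤ 1 / 3 * (n * N H (k + 2)) := by
    have a := ps (k + 2)
    have b := pf (k + 2) hN2
    have c : (0 : ℝ) ≤ ((k + 2 : ℕ) : ℝ) * N H (k + 2) := by positivity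
    have dd : (0 : ℝ) ≤ DS H (k + 2) := by positivity
    rw [b] at a
    have hh : 0 < n * N H (k + 2) := by positivity
    nlinarith
  have ss3 : (SS H (k + 3) : ℝ) ≤ 1 / 3 * (n * N H (k + 3)) := by
    have a := ps (k + 3)
    have b := pf (k + 3) hN3
    have c : (0 : ℝ) ≤ ((k + 3 : ℕ) : ℝ) * N H (k + 3) := by positivity
    have dd : (0 : ℝ) ≤ DS H (k + 3) := by positivity
    rw [b] at a
    have hh : 0 < n * N H (k + 3) := by positivity
    nlinarith
  have ss2' : 1 / 17 * (n * N H (k + 2)) ≤ SS H (k + 2) := by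
    have a := ps (k + 2)
    have b := pf (k + 2) hN2
    rw [b] at a
    have hh : 0 < n * N H (k + 2) := by positivity
    have c : ((k + 2 : ℕ) : ℝ) * N H (k + 2) ≤ 1 / 10000 * (n * N H (k + 2)) := by
      push_cast
      have : (k : ℝ) + 2 ≤ 1 / 10000 * n := by nlinarith
      nlinarith
    nlinarith
  have tau0 : ((TT H k).card : ℝ) = 2 * SS H (k + 2) := by exact_mod_cast htau V H k
  have tau1 : ((TT H (k + 1)).card : ℝ) = 2 * SS H (k + 3) := by exact_mod_cast htau V H (k + 1)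
  have hcs' : ((TL H B k).card : ℝ) ^ 2 ≤ n * N H k * (QQ H B k).card := by
    rw [hndef]
    exact_mod_cast hcs V H B k
  have hQ : ((QQ H B k).card : ℝ) ≤ 2 * B * (TL H B k).card + 2 * B * (PP H B k).card +
      3 * B ^ 2 * (TT H k).card + (PP H B (k + 1)).card := by
    exact_mod_cast QQ_le (H := H) h12 h34 h567 h8 B k
  have hP0 : ((PP H B k).card : ℝ) ≤ 2 * B * (CH H k).card + (CH H (k + 1)).card +
      B * (TL H B k).card := by
    exact_mod_cast PP_le (H := H) hp12 hp3 hp4 B k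
  have hP1 : ((PP H B (k + 1)).card : ℝ) ≤ 2 * B * (CH H (k + 1)).card + (CH H (k + 2)).card +
      B * (TL H B (k + 1)).card := by
    exact_mod_cast PP_le (H := H) hp12 hp3 hp4 B (k + 1)
  have hc0 : ((CH H k).card : ℝ) ≤ 8 * DS H (k + 2) := by exact_mod_cast hch V H k
  have hc1 : ((CH H (k + 1)).card : ℝ) ≤ 8 * DS H (k + 3) := by exact_mod_cast hch V H (k + 1)
  have hc2 : ((CH H (k + 2)).card : ℝ) ≤ 8 * DS H (k + 4) := by exact_mod_cast hch V H (k + 2)
  have hns : ∀ j : ℕ, ((j : ℝ) + 1) * N H (j + 1) ≤ n * N H j := by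
    intro j
    have := N_succ_le (H := H) h1 j
    rw [hndef]
    exact_mod_cast this
  have y0 : 0 < n / m := by positivity
  have hm' : m ≤ 4 * (((k + 2 : ℕ) : ℝ) + 1) := by push_cast; linarith
  have hm'' : m ≤ 4 * (((k + 3 : ℕ) : ℝ) + 1) := by push_cast; linarith
  have n3 : (N H (k + 3) : ℝ) ≤ 4 * (n / m) * N H (k + 2) := by
    have a := hns (k + 2)
    have e1 : k + 2 + 1 = k + 3 := rfl
    rw [e1] at a
    rw [show 4 * (n / m) * (N H (k + 2) : ℝ) = 4 * (n * N H (k + 2)) / m by ring,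
      le_div_iff₀ hm]
    nlinarith
  have n4 : (N H (k + 4) : ℝ) ≤ 4 * (n / m) * N H (k + 3) := by
    have a := hns (k + 3)
    have e1 : k + 3 + 1 = k + 4 := rfl
    rw [e1] at a
    rw [show 4 * (n / m) * (N H (k + 3) : ℝ) = 4 * (n * N H (k + 3)) / m by ring,
      le_div_iff₀ hm]
    nlinarith
  have e10 : 74 / 100 * (n * N H k) ≤ ((k : ℝ) + 1) * N H (k + 1) := by
    unfold Eb at hE0
    rw [← hndef] at hE0
    rwa [le_div_iff₀ (by positivity)] at hE0
  have e11 : 74 / 100 * (n * N H (k + 1)) ≤ ((k : ℝ) + 2) * N H (k + 2) := by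
    unfold Eb at hE1
    rw [← hndef] at hE1
    rw [le_div_iff₀ (by positivity)] at hE1
    have : ((((k + 1 : ℕ) : ℝ) + 1) * (N H (k + 1 + 1) : ℝ)) = ((k : ℝ) + 2) * N H (k + 2) := by
      push_cast; ring
    rwa [this] at hE1
  have h10 : 2 * (n / m) ^ 2 * N H k ≤ N H (k + 2) := by
    have a1 : 74 / 100 * (n * N H k) ≤ m / 2 * N H (k + 1) :=
      e10.trans (mul_le_mul_of_nonneg_right (by linarith) N1.le)
    have a2 : 74 / 100 * (n * N H (k + 1)) ≤ m / 2 * N H (k + 2) :=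
      e11.trans (mul_le_mul_of_nonneg_right (by linarith) N2.le)
    have a3 : 74 / 100 * n * (74 / 100 * (n * N H k)) ≤ 74 / 100 * n * (m / 2 * N H (k + 1)) :=
      mul_le_mul_of_nonneg_left a1 (by positivity)
    have a4 : m / 2 * (74 / 100 * (n * N H (k + 1))) ≤ m / 2 * (m / 2 * N H (k + 2)) :=
      mul_le_mul_of_nonneg_left a2 (by positivity)
    rw [div_pow, show 2 * (n ^ 2 / m ^ 2) * (N H k : ℝ) = (2 * n ^ 2 * N H k) / m ^ 2 by ring,
      div_le_iff₀ (by positivity)]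
    have h0 : 0 < n ^ 2 * (N H k : ℝ) := by positivity
    have a5 : m / 2 * (74 / 100 * (n * N H (k + 1))) =
      74 / 100 * n * (m / 2 * N H (k + 1)) := by ring
    rw [a5] at a4
    have a6 := a3.trans a4
    have a7 : 74 / 100 * n * (74 / 100 * (n * N H k)) = 5476 / 10000 * (n ^ 2 * N H k) := by ring
    have a8 : m / 2 * (m / 2 * (N H (k + 2) : ℝ)) = (N H (k + 2) * m ^ 2) / 4 := by ring
    rw [a7, a8] at a6
    have a9 : 2 * n ^ 2 * (N H k : ℝ) = 2 * (n ^ 2 * N H k) := by ring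
    rw [a9]
    linarith
  have hy : 4000 ≤ n / m := by
    rw [le_div_iff₀ hm]
    nlinarith
  have hB' : (B : ℝ) ≤ n / m / 2000 := by
    rw [div_div, mul_comm m 2000]
    exact hB
  have hlt := struct_core (n := n) (y := n / m) (N0 := N H k) (NK := N H (k + 2))
    (NK1 := N H (k + 3)) (NK2 := N H (k + 4)) (T0 := (TT H k).card) (T1 := (TT H (k + 1)).card)
    (TL0 := (TL H B k).card) (TL1 := (TL H B (k + 1)).card) (P0 := (PP H B k).card)
    (P1 := (PP H B (k + 1)).card) (C0 := (CH H k).card) (C1 := (CH H (k + 1)).card)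
    (C2 := (CH H (k + 2)).card) (Q := (QQ H B k).card) (B := B)
    hn0 hy N0 N2 hcs' hQ hP0 hP1 (by linarith) (by linarith) (by linarith)
    (by exact_mod_cast TL_le_TT B k) (by exact_mod_cast TL_le_TT B (k + 1))
    (by rw [tau0]; linarith) (by rw [tau1]; linarith) n3 n4 (Nat.cast_nonneg _) hB'
    (by rw [tau0]; linarith) h10 (Nat.cast_nonneg _) (Nat.cast_nonneg _) (Nat.cast_nonneg _)
    (Nat.cast_nonneg _) (Nat.cast_nonneg _)
  have hh : ((TT H k).card : ℝ) ≤ (TL H B k).card + 3 * (HV H B k).card := by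
    exact_mod_cast hheavy V H B k
  have hhv' : ((HV H B k).card : ℝ) = 2 * HS H B (k + 2) := by exact_mod_cast hhv V H B k
  have hX : 0 < n * N H (k + 2) := by positivity
  rw [tau0] at hh hlt
  linarith

end

end Pool.Agent.H666.TK
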