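import Pool.Agent.H666.TK.Proofs
import Pool.Agent.H666.TK.Struct
import Pool.Agent.H666.TK.Star
import Pool.Agent.H666.TK.FinalNum

/-!
# The core theorem: for large `m` divisible by `12` and large `n`
-/

set_option autoImplicit false
set_option linter.unusedSectionVars false

open Finset
open scoped Classical

namespace Pool.Agent.H666.TK

noncomputable section

variable {V : Type} [Fintype V] [DecidableEq V] {H : Finset (Finset V)}

theorem sum_three (f : ℕ → ℝ) (q : ℕ) :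
    ∑ j ∈ range (3 * q), f j = ∑ i ∈ range q, (f (3 * i) + f (3 * i + 1) + f (3 * i + 2)) := by
  induction q with
  | zero => simp
  | succ q ih =>
    rw [sum_range_succ, ← ih, show 3 * (q + 1) = 3 * q + 1 + 1 + 1 by ring, sum_range_succ,
      sum_range_succ, sum_range_succ]
    ring

theorem pick {f : ℕ → ℝ} (hf : ∀ j, 0 ≤ f j) {q : ℕ} (hq : 0 < q) {c : ℝ}
    (h : ∑ j ∈ range (3 * q), f j ≤ q * c) :
    ∃ i, i < q ∧ f (3 * i) ≤ c ∧ f (3 * i + 1) ≤ c ∧ f (3 * i + 2) ≤ c := by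
  rw [sum_three] at h
  have h1 : ∃ i ∈ range q, f (3 * i) + f (3 * i + 1) + f (3 * i + 2) ≤ c := by
    by_contra hcon
    push Not at hcon
    have h2 : ∑ i ∈ range q, c < ∑ i ∈ range q, (f (3 * i) + f (3 * i + 1) + f (3 * i + 2)) :=
      sum_lt_sum_of_nonempty ⟨0, mem_range.2 hq⟩ hcon
    rw [sum_const, card_range, nsmul_eq_mul] at h2
    linarith
  obtain ⟨i, hi, h3⟩ := h1
  refine ⟨i, mem_range.1 hi, ?_, ?_, ?_⟩ <;>
    linarith [hf (3 * i), hf (3 * i + 1), hf (3 * i + 2)]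

theorem fb_zero (hV : 0 < Fintype.card V) : fb H 0 = 0 := by
  unfold fb Eb
  rw [N_small 0 (by norm_num), N_small (0 + 1) (by norm_num)]
  have : (0 : ℝ) < Fintype.card V := by exact_mod_cast hV
  simp [Nat.choose_one_right, this.ne']

theorem fb_one (hV : 0 < Fintype.card V) : fb H 1 = 1 / Fintype.card V := by
  unfold fb Eb
  rw [N_small 1 (by norm_num), N_small (1 + 1) (by norm_num), Nat.choose_one_right]
  have : (0 : ℝ) < Fintype.card V := by exact_mod_cast hV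
  have h2 : (((Fintype.card V).choose (1 + 1) : ℕ) : ℝ) =
      (Fintype.card V : ℝ) * ((Fintype.card V : ℝ) - 1) / 2 := by
    rw [show 1 + 1 = 2 from rfl, Nat.cast_choose_two]
  rw [h2]
  field_simp
  push_cast
  ring

theorem fb_of_Fb {k : ℕ} (hk : 2 ≤ k) : fb H k = (k : ℝ) * ((k : ℝ) - 1) * Fb H k := by
  unfold Fb
  have h : (2 : ℝ) ≤ k := by exact_mod_cast hk
  have h1 : (k : ℝ) - 1 ≠ 0 := by
    have : (0 : ℝ) < (k : ℝ) - 1 := by linarith
    exact this.ne'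
  have h2 : (k : ℝ) ≠ 0 := by
    have : (0 : ℝ) < (k : ℝ) := by linarith
    exact this.ne'
  field_simp

/-- **The core theorem.** -/
theorem core {q : ℕ} {m : ℝ} (hmq : m = 12 * q) (hm : (10 : ℝ) ^ 20 ≤ m)
    (hn : 10000 * (m + m ^ 2) ≤ Fintype.card V) (hcl : N H (12 * q) = 0) :
    (1 + 2 / 10 ^ 17) / m ^ 2 < Fb H 2 := by
  by_contra hcon
  rw [not_lt] at hcon
  have hm1 : (1000000 : ℝ) ≤ m := le_trans (by norm_num) hm
  have hm0 : 0 < m := by linarith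
  have hq0 : (80000 : ℝ) ≤ q := by linarith
  have hq1 : 80000 ≤ q := by exact_mod_cast hq0
  obtain ⟨n, hndef⟩ : ∃ n : ℝ, n = (Fintype.card V : ℝ) := ⟨_, rfl⟩
  have hn' := hn
  rw [← hndef] at hn'
  have hmm : 0 < m ^ 2 := by positivity
  have hn0 : 0 < n := by linarith
  have hn2 : 10000 * m ^ 2 ≤ n := by linarith
  have hcard : 2 ≤ Fintype.card V := by
    have : (2 : ℝ) ≤ Fintype.card V := by rw [← hndef]; linarith
    exact_mod_cast this
  have h2' : 0 < N H 2 := by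
    rw [N_small 2 le_rfl]
    exact Nat.choose_pos hcard
  obtain ⟨w, hw2, hwm, hw3, hw1⟩ := exists_top (H := H) h2' hcl
  have hanti := fun {a b : ℕ} (ha : 2 ≤ a) (hab : a ≤ b) (hN : 0 < N H b) =>
    Fb_anti (H := H) p_loc p_sum1 p_sum2 ha hab hN
  have hFw := Fb_top (H := H) hw1
  have hw2' : (2 : ℝ) ≤ w := by exact_mod_cast hw2
  have hwm' : (w : ℝ) ≤ m := by
    rw [hmq]; exact_mod_cast hwm.le
  have hww : 0 < (w : ℝ) * ((w : ℝ) - 1) := by
    have : (0 : ℝ) < (w : ℝ) - 1 := by linarith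
    positivity
  have hlow : 1 / m ^ 2 ≤ Fb H w := by
    rw [hFw]
    refine one_div_le_one_div_of_le hww ?_
    nlinarith
  have hwbig : 6 * q < w := by
    have h1 : Fb H w ≤ (1 + 2 / 10 ^ 17) / m ^ 2 := (hanti le_rfl hw2 hw3).trans hcon
    rw [hFw, div_le_div_iff₀ hww hmm] at h1
    have h2 : (1 : ℝ) / 4 * m ^ 2 < (w : ℝ) ^ 2 := by nlinarith
    have h3 : (6 * q : ℝ) < w := by
      refine lt_of_pow_lt_pow_left₀ 2 (by positivity) ?_
      have : (6 * (q : ℝ)) ^ 2 = 1 / 4 * m ^ 2 := by rw [hmq]; ring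
      rw [this]; exact h2
    exact_mod_cast h3
  have hNle : ∀ k, k ≤ 6 * q + 1 → 0 < N H k := fun k hk => N_pos_of_le (by omega) hw3
  have hFup : ∀ k, 2 ≤ k → k ≤ 6 * q + 1 → Fb H k ≤ (1 + 2 / 10 ^ 17) / m ^ 2 := fun k h1 h2 =>
    (hanti le_rfl h1 (hNle k h2)).trans hcon
  have hFlo : ∀ k, 2 ≤ k → k ≤ 6 * q + 1 → 1 / m ^ 2 ≤ Fb H k := fun k h1 h2 =>
    hlow.trans (hanti h1 (by omega) hw3)
  -- selection of the level
  have htele := chain_tele (H := H) p_loc p_sum1 p_sum2 (a := 3 * q) (b := 6 * q) (by omega)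
    (by omega) (hNle _ (by omega))
  have hsum : ∑ k ∈ Ico (3 * q) (6 * q), Db H (k + 1) / (((k : ℝ) - 1) * k * (k + 1)) ≤
      2 / 10 ^ 17 / m ^ 2 := by
    have h1 := hFup (3 * q) (by omega) (by omega)
    have h2 := hFlo (6 * q) (by omega) (by omega)
    have e : (1 + 2 / 10 ^ 17) / m ^ 2 = 1 / m ^ 2 + 2 / 10 ^ 17 / m ^ 2 := by ring
    rw [e] at h1
    linarith
  have hsum2 : ∑ j ∈ range (3 * q), Db H (3 * q + j + 1) ≤ q * (3 / 10 ^ 17) := by
    have e1 : ∑ j ∈ range (3 * q), Db H (3 * q + j + 1) = ∑ k ∈ Ico (3 * q) (6 * q),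
        Db H (k + 1) := by
      rw [sum_Ico_eq_sum_range]
      have : 6 * q - 3 * q = 3 * q := by omega
      rw [this]
    rw [e1]
    have h1 : ∑ k ∈ Ico (3 * q) (6 * q), Db H (k + 1) ≤ ∑ k ∈ Ico (3 * q) (6 * q),
        (6 * (q : ℝ)) ^ 3 * (Db H (k + 1) / (((k : ℝ) - 1) * k * (k + 1))) := by
      refine sum_le_sum fun k hk => ?_
      rw [mem_Ico] at hk
      have hk1 : (2 : ℝ) ≤ k := by
        have : 2 ≤ k := by omega
        exact_mod_cast this
      have hk2 : (k : ℝ) + 1 ≤ 6 * q := by exact_mod_cast hk.2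
      have hk3 : (0 : ℝ) < (k : ℝ) - 1 := by linarith
      have hk4 : 0 < ((k : ℝ) - 1) * k * (k + 1) := by positivity
      rw [mul_div_assoc', le_div_iff₀ hk4, mul_comm]
      refine mul_le_mul_of_nonneg_right ?_ (Db_nonneg _)
      have h3 : ((k : ℝ) - 1) * k ≤ (6 * (q : ℝ)) * (6 * q) :=
        mul_le_mul (by linarith) (by linarith) (by linarith) (by positivity)
      calc ((k : ℝ) - 1) * k * (k + 1) ≤ (6 * (q : ℝ)) * (6 * q) * (6 * q) :=
            mul_le_mul h3 hk2 (by linarith) (by positivity)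
        _ = _ := by ring
    rw [← mul_sum] at h1
    have h2 := mul_le_mul_of_nonneg_left hsum (show (0 : ℝ) ≤ (6 * (q : ℝ)) ^ 3 by positivity)
    have e2 : (6 * (q : ℝ)) ^ 3 * (2 / 10 ^ 17 / m ^ 2) = q * (3 / 10 ^ 17) := by
      have : (q : ℝ) ≠ 0 := by
        have : (0 : ℝ) < q := by linarith
        exact this.ne'
      rw [hmq]
      field_simp
      norm_num
    rw [e2] at h2
    exact h1.trans h2
  obtain ⟨i, hi, hD1, hD2, hD3⟩ := pick (f := fun j => Db H (3 * q + j + 1))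
    (fun j => Db_nonneg _) (by omega) hsum2
  obtain ⟨k, hk⟩ : ∃ k : ℕ, k + 1 = 3 * q + 3 * i := ⟨3 * q + 3 * i - 1, by omega⟩
  have ek2 : 3 * q + 3 * i + 1 = k + 2 := by omega
  have ek3 : 3 * q + (3 * i + 1) + 1 = k + 3 := by omega
  have ek4 : 3 * q + (3 * i + 2) + 1 = k + 4 := by omega
  simp only [ek2, ek3, ek4] at hD1 hD2 hD3
  have hkr : (k : ℝ) + 1 = 3 * q + 3 * i := by exact_mod_cast hk
  have hir : (i : ℝ) + 1 ≤ q := by exact_mod_cast hi
  have hi0 : (0 : ℝ) ≤ i := Nat.cast_nonneg _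
  have hk1 : m / 4 ≤ (k : ℝ) + 1 := by rw [hmq, hkr]; linarith
  have hk2 : (k : ℝ) + 2 ≤ m / 2 - 2 := by rw [hmq]; linarith
  have hk10 : 2 ≤ k := by omega
  -- bounds for `fb`
  have hfbup : ∀ j : ℕ, 2 ≤ j → (j : ℝ) ≤ m / 2 → j ≤ 6 * q + 1 → fb H j ≤ 26 / 100 := by
    intro j h1 h2 h3
    rw [fb_of_Fb h1]
    have h4 := hFup j h1 h3
    have h5 : (2 : ℝ) ≤ j := by exact_mod_cast h1
    have h6 : 0 ≤ (j : ℝ) * ((j : ℝ) - 1) := by
      have : (0 : ℝ) ≤ (j : ℝ) - 1 := by linarith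
      positivity
    have h7 : (j : ℝ) * ((j : ℝ) - 1) ≤ m ^ 2 / 4 := by nlinarith
    calc (j : ℝ) * ((j : ℝ) - 1) * Fb H j ≤ m ^ 2 / 4 * ((1 + 2 / 10 ^ 17) / m ^ 2) :=
          mul_le_mul h7 h4 ((by positivity : (0 : ℝ) ≤ 1 / m ^ 2).trans (hFlo j h1 h3))
            (by positivity)
      _ = (1 + 2 / 10 ^ 17) / 4 := by field_simp
      _ ≤ _ := by norm_num
  have hf0 := hfbup k hk10 (by linarith) (by omega)
  have hf1 := hfbup (k + 1) (by omega) (by push_cast; linarith) (by omega)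
  have hf2 := hfbup (k + 2) (by omega) (by push_cast; linarith) (by omega)
  have hf3 := hfbup (k + 3) (by omega) (by push_cast; linarith) (by omega)
  have hflo : ((k : ℝ) + 2) * ((k : ℝ) + 2 - 1) / m ^ 2 ≤ fb H (k + 2) := by
    rw [fb_of_Fb (by omega)]
    have h1 := hFlo (k + 2) (by omega) (by omega)
    have h2 : 0 ≤ ((k + 2 : ℕ) : ℝ) * (((k + 2 : ℕ) : ℝ) - 1) := by
      push_cast
      have : (0 : ℝ) ≤ (k : ℝ) + 2 - 1 := by linarith
      positivity
    have h3 := mul_le_mul_of_nonneg_left h1 h2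
    push_cast at h3 ⊢
    calc ((k : ℝ) + 2) * ((k : ℝ) + 2 - 1) / m ^ 2 =
          ((k : ℝ) + 2) * ((k : ℝ) + 2 - 1) * (1 / m ^ 2) := by ring
      _ ≤ _ := h3
  have hf16 : 1 / 16 ≤ fb H (k + 2) := by
    refine le_trans ?_ hflo
    rw [le_div_iff₀ hmm]
    nlinarith
  -- the threshold
  obtain ⟨B, hBdef⟩ : ∃ B : ℕ, B = ⌊n / (2000 * m)⌋₊ := ⟨_, rfl⟩
  have hB1 : (B : ℝ) ≤ n / (2000 * m) := by
    rw [hBdef]; exact Nat.floor_le (by positivity)
  have hB2 : 1 / (4000 * m) ≤ (B : ℝ) / n := by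
    have h1 : n / (2000 * m) < B + 1 := by rw [hBdef]; exact Nat.lt_floor_add_one _
    have h2 : 1 ≤ n / (4000 * m) := by
      rw [one_le_div (by positivity)]
      nlinarith
    have h3 : n / (4000 * m) ≤ B := by
      have : n / (2000 * m) = 2 * (n / (4000 * m)) := by field_simp; norm_num
      linarith
    rw [le_div_iff₀ hn0]
    calc 1 / (4000 * m) * n = n / (4000 * m) := by ring
      _ ≤ B := h3
  have hstr := structure_lemma (H := H) p_part p_sum1 p_cs p_q12 p_q34 p_q567 p_q8 p_p12 p_p3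
    p_p4 p_ch p_tau p_heavy p_hv (k := k) (m := m) (B := B) hm0 hn hk1 (by linarith)
    (hNle _ (by omega)) (by rw [← hndef]; exact hB1)
    (by unfold fb at hf0; linarith) (by unfold fb at hf1; linarith)
    (by linarith) (by linarith) hf16
    (hD1.trans (by norm_num)) (hD2.trans (by norm_num)) (hD3.trans (by norm_num))
  -- the tilting inequalities
  obtain ⟨p, hpdef⟩ : ∃ p : ℕ, p = ⌊m / 20000⌋₊ := ⟨_, rfl⟩
  have hp1 : (p : ℝ) ≤ m / 20000 := by rw [hpdef]; exact Nat.floor_le (by positivity)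
  have hp2 : m / 20000 - 1 ≤ p := by
    have : m / 20000 < p + 1 := by rw [hpdef]; exact Nat.lt_floor_add_one _
    linarith
  have hpK : 2 * p + 2 ≤ k + 2 := by
    have : (2 * (p : ℝ)) ≤ k := by linarith
    have : 2 * p ≤ k := by exact_mod_cast this
    omega
  have hNK : 0 < N H (k + 2) := hNle _ (by omega)
  have hF0 : 0 ≤ Fb H 2 :=
    (by positivity : (0 : ℝ) ≤ 1 / m ^ 2).trans (hFlo 2 le_rfl (by omega))
  have hFK : Fb H 2 * ((k + 2 : ℕ) : ℝ) ^ 2 ≤ 27 / 100 := by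
    have h1 : ((k + 2 : ℕ) : ℝ) ^ 2 ≤ (m / 2) ^ 2 :=
      pow_le_pow_left₀ (by positivity) (by push_cast; linarith) 2
    calc Fb H 2 * ((k + 2 : ℕ) : ℝ) ^ 2 ≤ (1 + 2 / 10 ^ 17) / m ^ 2 * (m / 2) ^ 2 :=
          mul_le_mul hcon h1 (by positivity) (by positivity)
      _ = (1 + 2 / 10 ^ 17) / 4 := by field_simp; norm_num
      _ ≤ _ := by norm_num
  have hfb : ∀ j, j < k + 2 → fb H j ≤ Fb H 2 * (j : ℝ) ^ 2 := by
    intro j hj
    rcases j with _ | _ | j
    · rw [fb_zero (by omega)]; positivity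
    · rw [fb_one (by omega)]
      have h1 := hFlo 2 le_rfl (by omega)
      have h2 : 1 / (Fintype.card V : ℝ) ≤ 1 / m ^ 2 := by
        refine one_div_le_one_div_of_le hmm ?_
        rw [← hndef]; linarith
      simp only [zero_add, Nat.cast_one, one_pow, mul_one]
      linarith
    · rw [fb_of_Fb (by omega)]
      have h1 := hanti (a := 2) (b := j + 1 + 1) le_rfl (by omega) (hNle _ (by omega))
      have h2 : (0 : ℝ) ≤ ((j + 1 + 1 : ℕ) : ℝ) * (((j + 1 + 1 : ℕ) : ℝ) - 1) := by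
        push_cast
        have : (0 : ℝ) ≤ (j : ℝ) + 1 + 1 - 1 := by
          have : (0 : ℝ) ≤ j := Nat.cast_nonneg _
          linarith
        positivity
      calc ((j + 1 + 1 : ℕ) : ℝ) * (((j + 1 + 1 : ℕ) : ℝ) - 1) * Fb H (j + 1 + 1) ≤
          ((j + 1 + 1 : ℕ) : ℝ) * (((j + 1 + 1 : ℕ) : ℝ) - 1) * Fb H 2 :=
            mul_le_mul_of_nonneg_left h1 h2
        _ ≤ ((j + 1 + 1 : ℕ) : ℝ) ^ 2 * Fb H 2 := by
            refine mul_le_mul_of_nonneg_right ?_ hF0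
            have : (0 : ℝ) ≤ ((j + 1 + 1 : ℕ) : ℝ) := Nat.cast_nonneg _
            nlinarith
        _ = _ := by ring
  have hst1 := star1 (H := H) p_avg p_T1 p_gibbs p_point p_num p_sum1 p_w1 p_e1 p_w2 p_e2
    (K := k + 2) (p := p) (B := B) (θ := 13 / 5000000) (F := Fb H 2) (by omega) hNK
    (by norm_num) (by norm_num) hF0 hFK hfb
  have hst2 := star2 (H := H) p_avg p_T1 p_gibbs p_point p_num p_sum1 p_dich p_w2 p_e2
    (K := k + 2) (p := p) (B := B) (F := Fb H 2) hpK hNK hF0 hFK hfb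
  obtain ⟨ρ, hρ⟩ : ∃ ρ : ℝ, ρ = Fb H 2 * ((k + 2 : ℕ) : ℝ) ^ 2 := ⟨_, rfl⟩
  have hρ0 : 0 ≤ ρ := by rw [hρ]; positivity
  obtain ⟨n1, n2, n3, n4, n5, n6, n7, n8⟩ := p_num (k + 2) ρ (by omega) hρ0 (by rw [hρ]; exact hFK)
  rw [← hρ] at hst1 hst2
  rw [← hndef] at hst1 hst2 hstr
  have hS0 : (0 : ℝ) < ((Seq H (k + 2)).card : ℝ) := by
    rw [card_Seq p_avg]
    have h0' : (0 : ℝ) < N H (k + 2) := by exact_mod_cast hNK
    have : (0 : ℝ) < (k + 2).factorial := by exact_mod_cast Nat.factorial_pos _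
    positivity
  have hhh : ((Seq H (k + 2)).card : ℝ) / 120 ≤
      ((k + 2).factorial : ℝ) * HS H B (k + 2) / n := by
    rw [card_Seq p_avg]
    have hfac : (0 : ℝ) < (k + 2).factorial := by exact_mod_cast Nat.factorial_pos _
    rw [mul_div_assoc, mul_div_assoc]
    refine mul_le_mul_of_nonneg_left ?_ hfac.le
    rw [le_div_iff₀ hn0]
    linarith
  have eK : ((k + 2 : ℕ) : ℝ) = (k : ℝ) + 2 := by push_cast; ring
  rw [eK] at hst1 hst2
  exact final_num (m := m) (K := (k : ℝ) + 2) (p := p) (n := n) (b := (B : ℝ) / n)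
    (S := ((Seq H (k + 2)).card : ℝ))
    (s1 := (((Seq H (k + 2)).filter fun v => Mat H (k + 2) p B v).card : ℝ))
    (hh := ((k + 2).factorial : ℝ) * HS H B (k + 2) / n)
    (Λ := Lam (k + 2) (lam ρ (2 * (k + 2)))) (Γ := Gam (k + 2) (lam ρ (2 * (k + 2))))
    (Θ := The (k + 2) (lam ρ (2 * (k + 2)))) (F := Fb H 2) (f := fb H (k + 2))
    hm (by linarith) (by linarith) hp2 hp1 hn2 hB2 n5 n6 n2 n3 n4 hcon hflo hf2 hS0
    (Nat.cast_nonneg _) hhh
    (by rw [hρ, eK] at hst1 ⊢; exact hst1) (by rw [hρ, eK] at hst2 ⊢; exact hst2)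

end

end Pool.Agent.H666.TK
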