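import Mathlib

/-!
# Definitions for the improvement of de Caen's bound (`K_m^3`, all `m`)

`H` is a 3-graph on a finite set `V` (a family of sets, only its 3-element members matter).
-/

set_option autoImplicit false

open Finset
open scoped Classical

namespace Pool.Agent.H666.TK

noncomputable section

variable {V : Type} [Fintype V] [DecidableEq V]

/-- `S` is a clique of `H`: all its triples are members of `H`. -/
def Cl (H : Finset (Finset V)) (S : Finset V) : Prop := ∀ T ⊆ S, T.card = 3 → T ∈ H

/-- The vertices outside `S` which extend `S` to a larger clique. -/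
def ext (H : Finset (Finset V)) (S : Finset V) : Finset V :=
  univ.filter fun x => x ∉ S ∧ Cl H (insert x S)

/-- The number of extensions. -/
def e (H : Finset (Finset V)) (S : Finset V) : ℕ := (ext H S).card

/-- The cliques with `k` vertices. -/
def Cs (H : Finset (Finset V)) (k : ℕ) : Finset (Finset V) :=
  ((univ : Finset V).powersetCard k).filter fun S => Cl H S

/-- The number of cliques with `k` vertices. -/
def N (H : Finset (Finset V)) (k : ℕ) : ℕ := (Cs H k).card

/-- The missing link of `x` in `L`: the pairs in `L` which form a missing triple with `x`. -/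
def lk (H : Finset (Finset V)) (L : Finset V) (x : V) : Finset (Finset V) :=
  (L.powersetCard 2).filter fun P => insert x P ∉ H

/-- The number of vertices outside `L` which are covered at least twice. -/
def Dd (H : Finset (Finset V)) (L : Finset V) : ℕ :=
  ((univ : Finset V).filter fun x => x ∉ L ∧ 2 ≤ (lk H L x).card).card

/-- The number of vertices outside `L` which are covered exactly once. -/
def Sg (H : Finset (Finset V)) (L : Finset V) : ℕ :=
  ((univ : Finset V).filter fun x => x ∉ L ∧ (lk H L x).card = 1).card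

/-- The number of vertices outside `L` which are covered by the pair `P` and no other pair. -/
def sg (H : Finset (Finset V)) (L P : Finset V) : ℕ :=
  ((univ : Finset V).filter fun x => x ∉ L ∧ lk H L x = {P}).card

/-- Sum of `Dd` over the cliques with `k` vertices. -/
def DS (H : Finset (Finset V)) (k : ℕ) : ℕ := ∑ L ∈ Cs H k, Dd H L

/-- Sum of `Sg` over the cliques with `k` vertices. -/
def SS (H : Finset (Finset V)) (k : ℕ) : ℕ := ∑ L ∈ Cs H k, Sg H L

/-- Total mass of heavy pairs in the cliques with `k` vertices. -/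
def HS (H : Finset (Finset V)) (B k : ℕ) : ℕ :=
  ∑ L ∈ Cs H k, ∑ P ∈ (L.powersetCard 2).filter (fun P => B ≤ sg H L P), sg H L P

/-- `a`, `b` are not adjacent over `R`. -/
def NA (H : Finset (Finset V)) (R : Finset V) (a b : V) : Prop :=
  a ∉ R ∧ b ∉ R ∧ a ≠ b ∧ Cl H (insert a (insert b R))

/-- `a`, `b` are adjacent over `R`. -/
def AD (H : Finset (Finset V)) (R : Finset V) (a b : V) : Prop :=
  a ∈ ext H R ∧ b ∈ ext H R ∧ a ≠ b ∧ ¬ Cl H (insert a (insert b R))

/-- `{a, b, x}` is a critical triple over `R`. -/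
def Tr (H : Finset (Finset V)) (R : Finset V) (a b x : V) : Prop :=
  NA H R a b ∧ NA H R a x ∧ NA H R b x ∧ ({a, b, x} : Finset V) ∉ H

/-- The codegree of `a`, `b` in the critical triples over `R`. -/
def cd (H : Finset (Finset V)) (R : Finset V) (a b : V) : ℕ :=
  ((univ : Finset V).filter fun x => Tr H R a b x).card

/-- `{a, b, x}` is a light critical triple over `R`. -/
def Lt (H : Finset (Finset V)) (B : ℕ) (R : Finset V) (a b x : V) : Prop :=
  Tr H R a b x ∧ cd H R a b < B ∧ cd H R a x < B ∧ cd H R b x < B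

/-- Tuples `(R, a, b, x)`: critical triples. -/
def TT (H : Finset (Finset V)) (k : ℕ) : Finset (Finset V × V × V × V) :=
  univ.filter fun p => p.1 ∈ Cs H k ∧ Tr H p.1 p.2.1 p.2.2.1 p.2.2.2

/-- Tuples `(R, a, b, x)`: light critical triples. -/
def TL (H : Finset (Finset V)) (B k : ℕ) : Finset (Finset V × V × V × V) :=
  univ.filter fun p => p.1 ∈ Cs H k ∧ Lt H B p.1 p.2.1 p.2.2.1 p.2.2.2

/-- Tuples `(R, a, b, x)`: critical triples with heavy pair `a, b`. -/
def HV (H : Finset (Finset V)) (B k : ℕ) : Finset (Finset V × V × V × V) :=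
  univ.filter fun p => p.1 ∈ Cs H k ∧ Tr H p.1 p.2.1 p.2.2.1 p.2.2.2 ∧ B ≤ cd H p.1 p.2.1 p.2.2.1

/-- Tuples `(R, a, b, x, z)`: a light critical triple with `z` adjacent to `x`. -/
def PP (H : Finset (Finset V)) (B k : ℕ) : Finset (Finset V × V × V × V × V) :=
  univ.filter fun p => p.1 ∈ Cs H k ∧ Lt H B p.1 p.2.1 p.2.2.1 p.2.2.2.1 ∧
    AD H p.1 p.2.2.2.1 p.2.2.2.2

/-- Tuples `(R, x, y, z)`: induced cherries with centre `x`. -/
def CH (H : Finset (Finset V)) (k : ℕ) : Finset (Finset V × V × V × V) :=
  univ.filter fun p => p.1 ∈ Cs H k ∧ AD H p.1 p.2.1 p.2.2.1 ∧ AD H p.1 p.2.1 p.2.2.2 ∧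
    NA H p.1 p.2.2.1 p.2.2.2

/-- Tuples `(R, a, b, x, c, z)`: two light critical triples through `x`. -/
def QQ (H : Finset (Finset V)) (B k : ℕ) : Finset (Finset V × V × V × V × V × V) :=
  univ.filter fun p => p.1 ∈ Cs H k ∧ Lt H B p.1 p.2.1 p.2.2.1 p.2.2.2.1 ∧
    Lt H B p.1 p.2.2.2.2.1 p.2.2.2.2.2 p.2.2.2.1

/-- The ordered cliques with `K` vertices. -/
def Seq (H : Finset (Finset V)) (K : ℕ) : Finset (Fin K → V) :=
  univ.filter fun v => Function.Injective v ∧ Cl H (univ.image v)

/-- The vertices of the sequence `v` which are strictly before `v i` in the time `u`. -/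
def bef {K R : ℕ} (v : Fin K → V) (u : Fin K → Fin R) (i : Fin K) : Finset V :=
  (univ.filter fun j => u j < u i).image v

end

end Pool.Agent.H666.TK
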