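import Pool.Agent.H666.TK.Chain
import Pool.Agent.H666.TK.SpecC

/-!
# The number of ordered cliques
-/

set_option autoImplicit false
set_option linter.unusedSectionVars false

open Finset
open scoped Classical

namespace Pool.Agent.H666.TK

noncomputable section

variable {V : Type} [Fintype V] [DecidableEq V] {H : Finset (Finset V)}

theorem N_small (k : ℕ) (hk : k ≤ 2) : N H k = (Fintype.card V).choose k := by
  have h : Cs H k = (univ : Finset V).powersetCard k := by
    ext S
    rw [mem_Cs, mem_powersetCard]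
    constructor
    · intro h; exact ⟨subset_univ _, h.1⟩
    · intro h; exact ⟨h.2, Cl_small (h.2.trans_le hk)⟩
  unfold N
  rw [h, card_powersetCard, card_univ]

theorem card_Seq (ha : S_avg) (K : ℕ) : ((Seq H K).card : ℝ) = (K.factorial : ℝ) * N H K := by
  have h := ha V H K (fun _ => (1 : ℝ))
  simp only [sum_const, nsmul_eq_mul, mul_one] at h
  exact h

theorem log_count {k : ℕ} (hN : 0 < N H k) :
    Real.log ((k.factorial : ℝ) * N H k) =
      ∑ i ∈ range k, Real.log ((Fintype.card V : ℝ) * Eb H i) := by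
  induction k with
  | zero =>
    rw [N_small 0 (by norm_num)]
    simp
  | succ k ih =>
    have h0 : 0 < N H k := N_pos_of_succ hN
    have hn : 0 < Fintype.card V := card_pos_of_N (by omega) hN
    rw [sum_range_succ, ← ih h0, ← Real.log_mul]
    · congr 1
      unfold Eb
      have h0' : (0 : ℝ) < N H k := by exact_mod_cast h0
      have hn' : (0 : ℝ) < Fintype.card V := by exact_mod_cast hn
      rw [Nat.factorial_succ]
      push_cast
      field_simp
    · have h0' : (0 : ℝ) < N H k := by exact_mod_cast h0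
      have : (0 : ℝ) < k.factorial := by exact_mod_cast Nat.factorial_pos k
      positivity
    · have h0' : (0 : ℝ) < N H k := by exact_mod_cast h0
      have h1' : (0 : ℝ) < N H (k + 1) := by exact_mod_cast hN
      have hn' : (0 : ℝ) < Fintype.card V := by exact_mod_cast hn
      unfold Eb
      positivity

/-- The average of `- log (1 - ρ t²)`. -/
def AL (K : ℕ) (ρ : ℝ) : ℝ :=
  (∑ r : Fin (2 * K), (- Real.log (1 - ρ * (((r : ℕ) : ℝ) / ((2 * K : ℕ) : ℝ)) ^ 2))) / (2 * K)

theorem avg_psi (K : ℕ) (ρ : ℝ) :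
    (∑ r, psi ρ (2 * K) r) / (2 * K) = AL K ρ - ρ * Lam K (lam ρ (2 * K)) := by
  unfold AL Lam psi lam
  rw [sum_sub_distrib, sub_div]
  congr 1
  rw [mul_div_assoc', mul_sum]
  congr 1
  refine sum_congr rfl fun r _ => ?_
  push_cast
  ring

/-- Lower bound for the number of ordered cliques. -/
theorem ent_lower (ha : S_avg) (hnum : S_num) {K : ℕ} (hK : 1 ≤ K) (hN : 0 < N H K) {F : ℝ}
    (hF0 : 0 ≤ F) (hF : F * (K : ℝ) ^ 2 ≤ 27 / 100)
    (hfb : ∀ i, i < K → fb H i ≤ F * (i : ℝ) ^ 2) :
    (K : ℝ) * Real.log (Fintype.card V) - K * AL K (F * (K : ℝ) ^ 2) ≤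
      Real.log (Seq H K).card := by
  have hn : 0 < Fintype.card V := card_pos_of_N hK hN
  have hn' : (0 : ℝ) < Fintype.card V := by exact_mod_cast hn
  have hK' : (0 : ℝ) < K := by exact_mod_cast hK
  rw [card_Seq ha, log_count hN]
  obtain ⟨-, -, -, -, -, -, -, h8⟩ := hnum K (F * (K : ℝ) ^ 2) hK (by positivity) hF
  have h9 : ∑ i ∈ range K, Real.log ((Fintype.card V : ℝ) * Eb H i) =
      K * Real.log (Fintype.card V) + ∑ i ∈ range K, Real.log (Eb H i) := by
    have : ∀ i ∈ range K, Real.log ((Fintype.card V : ℝ) * Eb H i) =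
        Real.log (Fintype.card V) + Real.log (Eb H i) := by
      intro i hi
      rw [mem_range] at hi
      refine Real.log_mul hn'.ne' ?_
      have h0 : 0 < N H i := N_pos_of_le hi.le hN
      have h1 : 0 < N H (i + 1) := N_pos_of_le hi hN
      have h0' : (0 : ℝ) < N H i := by exact_mod_cast h0
      have h1' : (0 : ℝ) < N H (i + 1) := by exact_mod_cast h1
      have : 0 < Eb H i := by unfold Eb; positivity
      exact this.ne'
    rw [sum_congr rfl this, sum_add_distrib, sum_const, card_range, nsmul_eq_mul]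
  rw [h9]
  have h10 : ∑ i ∈ range K, - Real.log (Eb H i) ≤
      ∑ i ∈ range K, (- Real.log (1 - F * (K : ℝ) ^ 2 * ((i : ℝ) / K) ^ 2)) := by
    refine sum_le_sum fun i hi => ?_
    rw [mem_range] at hi
    have h1 := hfb i hi
    have hi' : (i : ℝ) ≤ K := by exact_mod_cast hi.le
    have e1 : F * (K : ℝ) ^ 2 * ((i : ℝ) / K) ^ 2 = F * (i : ℝ) ^ 2 := by
      field_simp
    rw [e1]
    have h2 : F * (i : ℝ) ^ 2 ≤ F * (K : ℝ) ^ 2 :=
      mul_le_mul_of_nonneg_left (pow_le_pow_left₀ (by positivity) hi' 2) hF0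
    have h3 : 1 - F * (i : ℝ) ^ 2 ≤ Eb H i := by
      unfold fb at h1
      linarith
    have h4 : 0 < 1 - F * (i : ℝ) ^ 2 := by linarith
    have := Real.log_le_log h4 h3
    linarith
  rw [sum_neg_distrib] at h10
  unfold AL
  linarith

end

end Pool.Agent.H666.TK
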