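import Pool.Agent.H666.TK.Tilt

/-!
# Good weights
-/

set_option autoImplicit false
set_option linter.unusedSectionVars false

open Finset
open scoped Classical

namespace Pool.Agent.H666.TK

noncomputable section

variable {V : Type} [Fintype V] [DecidableEq V] {H : Finset (Finset V)}

theorem exists_ab {K : ℕ} (hK : 1 ≤ K) {v : Fin K → V} (hv : v ∈ Seq H K) :
    ∃ a b : V → Fin K, ∀ x ∈ Cov H (univ.image v), x ∉ univ.image v ∧ a x ≠ b x ∧
      ({x, v (a x), v (b x)} : Finset V) ∉ H := by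
  have : Nonempty (Fin K) := ⟨⟨0, hK⟩⟩
  simp only [Seq, mem_filter, mem_univ, true_and] at hv
  have h : ∀ x ∈ Cov H (univ.image v), ∃ i j : Fin K, x ∉ univ.image v ∧ i ≠ j ∧
      ({x, v i, v j} : Finset V) ∉ H := by
    intro x hx
    simp only [Cov, mem_filter, mem_univ, true_and] at hx
    have h1 : lk H (univ.image v) x ≠ ∅ := fun h => hx.2 ((lk_eq_empty_iff hv.2 hx.1).1 h)
    obtain ⟨P, hP⟩ := nonempty_iff_ne_empty.2 h1
    rw [mem_lk] at hP
    obtain ⟨y, z, hyz, rfl⟩ := card_eq_two.1 hP.1.2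
    have hy : y ∈ univ.image v := hP.1.1 (by simp)
    have hz : z ∈ univ.image v := hP.1.1 (by simp)
    rw [mem_image] at hy hz
    obtain ⟨i, -, rfl⟩ := hy
    obtain ⟨j, -, rfl⟩ := hz
    exact ⟨i, j, hx.1, fun h => hyz (by rw [h]), hP.2⟩
  choose! a b h' using h
  exact ⟨a, b, h'⟩

/-- The chosen pair of a vertex which is covered once. -/
theorem pair_eq {K : ℕ} {v : Fin K → V} (hv : v ∈ Seq H K) {a b : V → Fin K}
    (hC : ∀ x ∈ Cov H (univ.image v), x ∉ univ.image v ∧ a x ≠ b x ∧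
      ({x, v (a x), v (b x)} : Finset V) ∉ H) {x : V} {P : Finset V} (hx : x ∉ univ.image v)
    (hP : lk H (univ.image v) x = {P}) :
    x ∈ Cov H (univ.image v) ∧ P = {v (a x), v (b x)} := by
  simp only [Seq, mem_filter, mem_univ, true_and] at hv
  have hx' : x ∈ Cov H (univ.image v) := by
    simp only [Cov, mem_filter, mem_univ, true_and]
    refine ⟨hx, fun h => ?_⟩
    rw [← lk_eq_empty_iff hv.2 hx, hP] at h
    exact singleton_ne_empty _ h
  refine ⟨hx', ?_⟩
  obtain ⟨-, h2, h3⟩ := hC x hx'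
  have h4 : ({v (a x), v (b x)} : Finset V) ∈ lk H (univ.image v) x := by
    rw [mem_lk]
    refine ⟨⟨?_, ?_⟩, h3⟩
    · intro y hy
      simp only [mem_insert, mem_singleton] at hy
      rcases hy with rfl | rfl <;> exact mem_image_of_mem _ (mem_univ _)
    · exact card_pair fun h => h2 (hv.1 h)
  rw [hP, mem_singleton] at h4
  exact h4.symm

/-- A set of size `c ≥ 1` of heavily covered vertices: the set of vertices covered only by the
pair of `i, j`. -/
def Only (H : Finset (Finset V)) {K : ℕ} (v : Fin K → V) (i j : Fin K) : Finset V :=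
  univ.filter fun x => x ∉ univ.image v ∧ lk H (univ.image v) x = {({v i, v j} : Finset V)}

theorem card_Only {K : ℕ} (v : Fin K → V) (i j : Fin K) :
    (Only H v i j).card = sg H (univ.image v) {v i, v j} := rfl

theorem pair_inj {K : ℕ} {v : Fin K → V} (hv : Function.Injective v) {i j k l : Fin K}
    (h : ({v i, v j} : Finset V) = {v k, v l}) : (i = k ∧ j = l) ∨ (i = l ∧ j = k) := by
  have h1 : v i ∈ ({v k, v l} : Finset V) := h ▸ (by simp)
  have h2 : v j ∈ ({v k, v l} : Finset V) := h ▸ (by simp)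
  have h3 : v k ∈ ({v i, v j} : Finset V) := h ▸ (by simp)
  have h4 : v l ∈ ({v i, v j} : Finset V) := h ▸ (by simp)
  simp only [mem_insert, mem_singleton, hv.eq_iff] at h1 h2 h3 h4
  rcases h1 with h1 | h1 <;> rcases h2 with h2 | h2 <;> rcases h3 with h3 | h3 <;>
    rcases h4 with h4 | h4 <;> subst_vars <;> simp_all

/-- Good weight from a matching of heavy pairs. -/
theorem good_match (hw1 : S_w1) (he1 : S_e1) (hnum : S_num) {K p B : ℕ} {ρ θ : ℝ} (hK : 2 ≤ K)
    (hρ0 : 0 ≤ ρ) (hρ : ρ ≤ 27 / 100) (hθ0 : 0 ≤ θ) (hθ1 : θ < 1)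
    {v : Fin K → V} (hv : v ∈ Seq H K)
    (hm : ∃ a b : Fin p → Fin K, Function.Injective (Sum.elim a b) ∧
      ∀ l, a l ≠ b l ∧ B ≤ sg H (univ.image v) {v (a l), v (b l)}) :
    Good H K ρ v (θ ^ 2 * p)
      (((Cov H (univ.image v)).card : ℝ) * (((K : ℝ) - 2) * Lam K (lam ρ (2 * K)) -
        2 * θ * The K (lam ρ (2 * K))) + p * B * (((K : ℝ) - 2) * (θ * Gam K (lam ρ (2 * K))))) := by
  obtain ⟨a', b', hinj, hheavy⟩ := hm
  obtain ⟨a, b, hC⟩ := exists_ab (by omega) hv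
  have hvi : Function.Injective v := by
    simp only [Seq, mem_filter, mem_univ, true_and] at hv
    exact hv.1
  obtain ⟨w1, w2, w3, w4⟩ := hw1 K p θ a' b' (by omega) hinj hθ0 hθ1
  obtain ⟨n1, n2, n3, n4, n5, n6, n7, n8⟩ := hnum K ρ (by omega) hρ0 hρ
  refine ⟨a, b, W1 K p θ a' b', hC, w1, w2, w3, fun i => (w4 _ i).ge, ?_⟩
  have hφ : ∀ r, 0 ≤ lam ρ (2 * K) r := fun r => zero_le_one.trans (n1 r)
  have hM : (0 : ℝ) ≤ ((2 * K : ℕ) : ℝ) ^ K := by positivity
  have hK2 : (0 : ℝ) ≤ (K : ℝ) - 2 := by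
    have : (2 : ℝ) ≤ K := by exact_mod_cast hK
    linarith
  -- the vertices covered only by a pair of the matching
  have hdisj : ∀ l ∈ (univ : Finset (Fin p)), ∀ l' ∈ (univ : Finset (Fin p)), l ≠ l' →
      Disjoint (Only H v (a' l) (b' l)) (Only H v (a' l') (b' l')) := by
    intro l _ l' _ hll
    rw [disjoint_left]
    intro x hx hx'
    simp only [Only, mem_filter, mem_univ, true_and] at hx hx'
    have h1 := hx.2.symm.trans hx'.2
    rw [singleton_inj] at h1
    rcases pair_inj hvi h1 with h2 | h2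
    · have : Sum.elim a' b' (Sum.inl l) = Sum.elim a' b' (Sum.inl l') := h2.1
      have := hinj this
      exact hll (Sum.inl_injective this)
    · have : Sum.elim a' b' (Sum.inl l) = Sum.elim a' b' (Sum.inr l') := h2.1
      have := hinj this
      exact absurd this (by simp)
  obtain ⟨U, hU⟩ : ∃ U : Finset V, U = univ.biUnion fun l : Fin p => Only H v (a' l) (b' l) :=
    ⟨_, rfl⟩
  have hUsub : U ⊆ Cov H (univ.image v) := by
    intro x hx
    rw [hU, mem_biUnion] at hx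
    obtain ⟨l, -, hx⟩ := hx
    simp only [Only, mem_filter, mem_univ, true_and] at hx
    exact (pair_eq hv hC hx.1 hx.2).1
  have hUcard : (p : ℝ) * B ≤ U.card := by
    have h1 : U.card = ∑ l : Fin p, (Only H v (a' l) (b' l)).card := by
      rw [hU]; exact card_biUnion hdisj
    have h2 : p * B ≤ U.card := by
      rw [h1]
      calc p * B = ∑ l : Fin p, B := by simp
        _ ≤ _ := sum_le_sum fun l _ => (hheavy l).2
    exact_mod_cast h2
  have hone : ∀ x ∈ Cov H (univ.image v), ((2 * K : ℕ) : ℝ) ^ K *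
      ((((K : ℝ) - 2) * Lam K (lam ρ (2 * K)) - 2 * θ * The K (lam ρ (2 * K))) +
        (if x ∈ U then (((K : ℝ) - 2) * (θ * Gam K (lam ρ (2 * K)))) else 0)) ≤
      ∑ u, W1 K p θ a' b' u *
        ∑ i : Fin K, (if u (a x) < u i ∧ u (b x) < u i then lam ρ (2 * K) (u i) else 0) := by
    intro x hx
    obtain ⟨h1, h2⟩ := he1 K p θ a' b' (lam ρ (2 * K)) (by omega) hinj hθ0 hθ1 hφ (a x) (b x)
      (hC x hx).2.1
    by_cases hxU : x ∈ U
    · rw [if_pos hxU]
      have h3 : ∃ l, (a x = a' l ∧ b x = b' l) ∨ (a x = b' l ∧ b x = a' l) := by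
        rw [hU, mem_biUnion] at hxU
        obtain ⟨l, -, hxl⟩ := hxU
        simp only [Only, mem_filter, mem_univ, true_and] at hxl
        have h4 := (pair_eq hv hC hxl.1 hxl.2).2
        exact ⟨l, pair_inj hvi h4.symm⟩
      refine le_trans ?_ (h1 h3)
      refine mul_le_mul_of_nonneg_left ?_ hM
      have : 0 ≤ 2 * θ * The K (lam ρ (2 * K)) := by
        have : 0 ≤ The K (lam ρ (2 * K)) := by linarith
        positivity
      nlinarith
    · rw [if_neg hxU, add_zero]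
      exact h2
  refine le_trans ?_ (sum_le_sum hone)
  rw [← mul_sum, sum_add_distrib, sum_const, nsmul_eq_mul]
  refine mul_le_mul_of_nonneg_left ?_ hM
  have h5 : ∑ x ∈ Cov H (univ.image v),
      (if x ∈ U then (((K : ℝ) - 2) * (θ * Gam K (lam ρ (2 * K)))) else 0) =
      U.card * (((K : ℝ) - 2) * (θ * Gam K (lam ρ (2 * K)))) := by
    rw [← sum_filter, sum_const, nsmul_eq_mul]
    congr 2
    congr 1
    ext x
    rw [mem_filter]
    exact ⟨fun h => h.2, fun h => ⟨hUsub h, h⟩⟩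
  rw [h5]
  have h6 : 0 ≤ ((K : ℝ) - 2) * (θ * Gam K (lam ρ (2 * K))) := by
    have : 0 ≤ Gam K (lam ρ (2 * K)) := by linarith
    positivity
  have h7 := mul_le_mul_of_nonneg_right hUcard h6
  linarith

/-- The total mass of heavy pairs in `L`. -/
def hs (H : Finset (Finset V)) (B : ℕ) (L : Finset V) : ℕ :=
  ∑ P ∈ (L.powersetCard 2).filter (fun P => B ≤ sg H L P), sg H L P

/-- Good weight from a cover. -/
theorem good_cover (hw2 : S_w2) (he2 : S_e2) (hnum : S_num) {K p B : ℕ} {ρ : ℝ} (hK : 2 ≤ K)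
    (hρ0 : 0 ≤ ρ) (hρ : ρ ≤ 27 / 100) (hp : 2 * p + 2 ≤ K)
    {v : Fin K → V} (hv : v ∈ Seq H K) (A : Finset (Fin K)) (hA : A.card ≤ 2 * p)
    (hcov : ∀ i j, i ≠ j → B ≤ sg H (univ.image v) {v i, v j} → i ∈ A ∨ j ∈ A) :
    Good H K ρ v ((p : ℝ) / 2)
      (((K : ℝ) - 2 - 2 * p) * (((Cov H (univ.image v)).card : ℝ) * Lam K (lam ρ (2 * K)) +
        The K (lam ρ (2 * K)) / 2 * hs H B (univ.image v))) := by
  obtain ⟨a, b, hC⟩ := exists_ab (by omega) hv
  have hvi : Function.Injective v := by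
    simp only [Seq, mem_filter, mem_univ, true_and] at hv
    exact hv.1
  obtain ⟨w1, w2, w3, w4⟩ := hw2 K A (by omega)
  obtain ⟨n1, n2, n3, n4, n5, n6, n7, n8⟩ := hnum K ρ (by omega) hρ0 hρ
  have hM : (0 : ℝ) ≤ ((2 * K : ℕ) : ℝ) ^ K := by positivity
  have hφ : ∀ r, 0 ≤ lam ρ (2 * K) r := fun r => zero_le_one.trans (n1 r)
  have hA' : (A.card : ℝ) ≤ 2 * p := by exact_mod_cast hA
  refine ⟨a, b, W2 K A, hC, w1, w2, w3.trans (mul_le_mul_of_nonneg_left ?_ hM),
    fun i => w4 _ n7 i, ?_⟩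
  · linarith
  have hK2 : (0 : ℝ) ≤ (K : ℝ) - 2 - 2 * p := by
    have : ((2 * p + 2 : ℕ) : ℝ) ≤ K := by exact_mod_cast hp
    push_cast at this
    linarith
  have hThe : 0 ≤ The K (lam ρ (2 * K)) := by linarith
  obtain ⟨U, hU⟩ : ∃ U : Finset V, U = ((univ.image v).powersetCard 2 |>.filter
      (fun P => B ≤ sg H (univ.image v) P)).biUnion fun P =>
      univ.filter fun x => x ∉ univ.image v ∧ lk H (univ.image v) x = {P} := ⟨_, rfl⟩
  have hUcard : U.card = hs H B (univ.image v) := by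
    rw [hU, card_biUnion]
    · rfl
    · intro P _ P' _ hPP
      simp only [Function.onFun]
      rw [disjoint_left]
      intro x hx hx'
      simp only [mem_filter, mem_univ, true_and] at hx hx'
      have h1 := hx.2.symm.trans hx'.2
      rw [singleton_inj] at h1
      exact hPP h1
  have hUprop : ∀ x ∈ U, x ∈ Cov H (univ.image v) ∧ (a x ∈ A ∨ b x ∈ A) := by
    intro x hx
    rw [hU, mem_biUnion] at hx
    obtain ⟨P, hP, hx⟩ := hx
    simp only [mem_filter, mem_univ, true_and] at hx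
    rw [mem_filter] at hP
    obtain ⟨h1, h2⟩ := pair_eq hv hC hx.1 hx.2
    refine ⟨h1, hcov _ _ (hC x h1).2.1 ?_⟩
    rw [← h2]
    exact hP.2
  have hone : ∀ x ∈ Cov H (univ.image v), ((2 * K : ℕ) : ℝ) ^ K *
      (((K : ℝ) - 2 - 2 * p) * (Lam K (lam ρ (2 * K)) +
        (if x ∈ U then The K (lam ρ (2 * K)) / 2 else 0))) ≤
      ∑ u, W2 K A u *
        ∑ i : Fin K, (if u (a x) < u i ∧ u (b x) < u i then lam ρ (2 * K) (u i) else 0) := by
    intro x hx
    refine le_trans ?_ (he2 K A (lam ρ (2 * K)) (by omega) hφ (a x) (b x) (hC x hx).2.1)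
    refine mul_le_mul_of_nonneg_left ?_ hM
    have h3 : Lam K (lam ρ (2 * K)) + (if x ∈ U then The K (lam ρ (2 * K)) / 2 else 0) ≤
        Lam K (lam ρ (2 * K)) + (if a x ∈ A ∨ b x ∈ A then The K (lam ρ (2 * K)) / 2 else 0) := by
      by_cases hxU : x ∈ U
      · rw [if_pos hxU, if_pos (hUprop x hxU).2]
      · rw [if_neg hxU]
        split_ifs <;> linarith
    have h4 : 0 ≤ Lam K (lam ρ (2 * K)) +
        (if a x ∈ A ∨ b x ∈ A then The K (lam ρ (2 * K)) / 2 else 0) := by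
      split_ifs <;> linarith
    calc ((K : ℝ) - 2 - 2 * p) * (Lam K (lam ρ (2 * K)) +
        (if x ∈ U then The K (lam ρ (2 * K)) / 2 else 0)) ≤
        ((K : ℝ) - 2 - 2 * p) * (Lam K (lam ρ (2 * K)) +
        (if a x ∈ A ∨ b x ∈ A then The K (lam ρ (2 * K)) / 2 else 0)) :=
          mul_le_mul_of_nonneg_left h3 hK2
      _ ≤ _ := mul_le_mul_of_nonneg_right (by linarith) h4
  refine le_trans ?_ (sum_le_sum hone)
  rw [← mul_sum, ← mul_sum, sum_add_distrib, sum_const, nsmul_eq_mul]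
  refine mul_le_mul_of_nonneg_left ?_ hM
  refine mul_le_mul_of_nonneg_left ?_ hK2
  have h5 : ∑ x ∈ Cov H (univ.image v),
      (if x ∈ U then The K (lam ρ (2 * K)) / 2 else 0) =
      U.card * (The K (lam ρ (2 * K)) / 2) := by
    rw [← sum_filter, sum_const, nsmul_eq_mul]
    congr 2
    congr 1
    ext x
    rw [mem_filter]
    exact ⟨fun h => h.2, fun h => ⟨(hUprop x h).1, h⟩⟩
  rw [h5, hUcard]
  linarith

/-- Uniform weight. -/
theorem good_unif (hw2 : S_w2) (he2 : S_e2) (hnum : S_num) {K : ℕ} {ρ : ℝ} (hK : 2 ≤ K)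
    (hρ0 : 0 ≤ ρ) (hρ : ρ ≤ 27 / 100)
    {v : Fin K → V} (hv : v ∈ Seq H K) :
    Good H K ρ v 0
      (((K : ℝ) - 2) * (((Cov H (univ.image v)).card : ℝ) * Lam K (lam ρ (2 * K)))) := by
  obtain ⟨a, b, hC⟩ := exists_ab (by omega) hv
  obtain ⟨w1, w2, w3, w4⟩ := hw2 K ∅ (by omega)
  obtain ⟨n1, n2, n3, n4, n5, n6, n7, n8⟩ := hnum K ρ (by omega) hρ0 hρ
  have hM : (0 : ℝ) ≤ ((2 * K : ℕ) : ℝ) ^ K := by positivity
  have hφ : ∀ r, 0 ≤ lam ρ (2 * K) r := fun r => zero_le_one.trans (n1 r)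
  refine ⟨a, b, W2 K ∅, hC, w1, w2, w3.trans (mul_le_mul_of_nonneg_left ?_ hM),
    fun i => w4 _ n7 i, ?_⟩
  · simp
  have hone : ∀ x ∈ Cov H (univ.image v), ((2 * K : ℕ) : ℝ) ^ K *
      (((K : ℝ) - 2) * Lam K (lam ρ (2 * K))) ≤
      ∑ u, W2 K ∅ u *
        ∑ i : Fin K, (if u (a x) < u i ∧ u (b x) < u i then lam ρ (2 * K) (u i) else 0) := by
    intro x hx
    have h := he2 K ∅ (lam ρ (2 * K)) (by omega) hφ (a x) (b x) (hC x hx).2.1
    simpa using h
  refine le_trans ?_ (sum_le_sum hone)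
  rw [sum_const, nsmul_eq_mul]
  refine le_of_eq ?_
  ring

end

end Pool.Agent.H666.TK
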