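import Pool.Agent.H666.TK.Core
import Pool.Graph.R_seed8.H121R2.TuranMain

/-!
# From the core theorem to the Turan densities of all complete 3-graphs
-/

set_option autoImplicit false
set_option linter.unusedSectionVars false

open Finset
open scoped Classical

namespace Pool.Agent.H666.TK

open Pool.Agent.H121R2.Turan

theorem N_three {V : Type} [Fintype V] [DecidableEq V] {H : Finset (Finset V)}
    (h3 : ∀ e ∈ H, e.card = 3) : N H 3 = H.card := by
  unfold N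
  congr 1
  ext S
  rw [mem_Cs]
  constructor
  · rintro ⟨h1, h2⟩
    exact h2 S (Subset.refl _) h1
  · intro hS
    refine ⟨h3 S hS, fun T hT hc => ?_⟩
    have : T = S := eq_of_subset_of_card_le hT (by rw [hc, h3 S hS])
    rwa [this]

theorem N_eq_zero {V : Type} [Fintype V] [DecidableEq V] {H : Finset (Finset V)} {m : ℕ}
    (hf : ∀ S : Finset V, S.card = m → ¬ (S.powersetCard 3 ⊆ H)) : N H m = 0 := by
  unfold N
  rw [card_eq_zero, eq_empty_iff_forall_notMem]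
  intro S hS
  rw [mem_Cs] at hS
  refine hf S hS.1 fun T hT => ?_
  rw [mem_powersetCard] at hT
  exact hS.2 T hT.1 hT.2

/-- The bound for `m = 12 q`. -/
theorem d_core {q : ℕ} (hq : (10 : ℝ) ^ 20 ≤ 12 * (q : ℝ)) :
    2 * (1 + 2 / 10 ^ 17) / (12 * (q : ℝ)) ^ 2 ≤ d (12 * q) := by
  have hm1 : (1000000 : ℝ) ≤ 12 * (q : ℝ) := le_trans (by norm_num) hq
  have hm3 : 3 ≤ 12 * q := by
    have : ((3 : ℕ) : ℝ) ≤ ((12 * q : ℕ) : ℝ) := by push_cast; linarith
    exact_mod_cast this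
  have hmm : 0 < (12 * (q : ℝ)) ^ 2 := by positivity
  refine le_of_forall_pos_le_add fun δ hδ => ?_
  -- a large number of vertices
  obtain ⟨n, hn⟩ := exists_nat_ge (10000 * (12 * (q : ℝ) + (12 * (q : ℝ)) ^ 2) + 2 / δ)
  have hδ' : 0 < 2 / δ := by positivity
  have hn1 : 10000 * (12 * (q : ℝ) + (12 * (q : ℝ)) ^ 2) ≤ n := by linarith
  have hn3 : (3 : ℝ) ≤ n := by nlinarith
  have hn0 : (0 : ℝ) < n := by linarith
  have hn3' : 3 ≤ n := by exact_mod_cast hn3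
  obtain ⟨F, hF, hFc⟩ := exists_cov hm3 n
  obtain ⟨g1, g2⟩ := compl_free hF
  obtain ⟨H, hH⟩ : ∃ H : Finset (Finset (Fin n)), H = (univ.powersetCard 3) \ F := ⟨_, rfl⟩
  rw [← hH] at g1 g2
  have hHc : (H.card : ℝ) = n.choose 3 - T (12 * q) n := by
    have hsub : F ⊆ (univ.powersetCard 3 : Finset (Finset (Fin n))) := by
      intro e he
      rw [mem_powersetCard]
      exact ⟨subset_univ _, hF.1 e he⟩
    have h1 : H.card + F.card = n.choose 3 := by
      rw [hH, card_sdiff_of_subset hsub]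
      have h2 := card_le_card hsub
      simp only [card_powersetCard, card_univ, Fintype.card_fin] at h2 ⊢
      omega
    rw [← hFc]
    have : ((H.card + F.card : ℕ) : ℝ) = n.choose 3 := by rw [h1]
    push_cast at this
    linarith
  have hcore := core (H := H) (q := q) (m := 12 * (q : ℝ)) rfl hq
    (by rw [Fintype.card_fin]; exact hn1) (N_eq_zero g2)
  have hN2 : (N H 2 : ℝ) = (n : ℝ) * ((n : ℝ) - 1) / 2 := by
    rw [N_small 2 le_rfl, Fintype.card_fin, Nat.cast_choose_two]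
  have hC3 : (n.choose 3 : ℝ) = (n : ℝ) * (n - 1) * (n - 2) / 6 := choose3_real n
  have hFb : Fb H 2 = (1 - (n - 2) / n * (1 - r (12 * q) n)) / 2 := by
    unfold Fb fb Eb
    rw [N_three g1, hHc, hN2, Fintype.card_fin]
    unfold r
    have hC0 : (n.choose 3 : ℝ) ≠ 0 := (choose3_pos hn3').ne'
    have h4 : (n : ℝ) - 1 ≠ 0 := by
      have : (0 : ℝ) < (n : ℝ) - 1 := by linarith
      exact this.ne'
    have h5 : (n : ℝ) - 2 ≠ 0 := by
      have : (0 : ℝ) < (n : ℝ) - 2 := by linarith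
      exact this.ne'
    have h6 : (n.choose 3 : ℝ) - T (12 * q) n =
        n.choose 3 * (1 - (T (12 * q) n : ℝ) / n.choose 3) := by
      field_simp
    rw [h6, hC3]
    push_cast
    field_simp
    ring
  rw [hFb] at hcore
  have hr := r_le_d hm3 n
  have h7 : 2 / (n : ℝ) ≤ δ := by
    rw [div_le_iff₀ hn0]
    have : 2 / δ ≤ n := by linarith [(by positivity : (0 : ℝ) ≤ 10000 * (12 * (q : ℝ) +
      (12 * (q : ℝ)) ^ 2))]
    rw [div_le_iff₀ hδ] at this
    linarith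
  have h8 : (n - 2) / n * (1 - r (12 * q) n) = 1 - r (12 * q) n - 2 / n * (1 - r (12 * q) n) := by
    field_simp
  rw [h8] at hcore
  have h9 : 0 ≤ r (12 * q) n := r_nonneg _ _
  have h10 : 2 / (n : ℝ) * (1 - r (12 * q) n) ≤ 2 / n * 1 :=
    mul_le_mul_of_nonneg_left (by linarith) (by positivity)
  have h11 : 2 * (1 + 2 / 10 ^ 17) / (12 * (q : ℝ)) ^ 2 =
      2 * ((1 + 2 / 10 ^ 17) / (12 * (q : ℝ)) ^ 2) := by ring
  rw [h11]
  linarith

/-- The densities are decreasing. -/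
theorem T_anti {a b : ℕ} (ha : 3 ≤ a) (hab : a ≤ b) (n : ℕ) : T b n ≤ T a n := by
  obtain ⟨F, hF, hFc⟩ := exists_cov ha n
  rw [← hFc]
  refine T_le_card ⟨hF.1, fun S hS => ?_⟩
  obtain ⟨S', hS', hc⟩ := exists_subset_card_eq (s := S) (n := a) (by omega)
  obtain ⟨e, he, hes⟩ := hF.2 S' hc
  exact ⟨e, he, hes.trans hS'⟩

theorem d_anti {a b : ℕ} (ha : 3 ≤ a) (hab : a ≤ b) : d b ≤ d a := by
  refine le_of_tendsto_of_tendsto' (tendsto_r (by omega)) (tendsto_r ha) fun n => ?_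
  unfold r
  refine div_le_div_of_nonneg_right ?_ (Nat.cast_nonneg _)
  exact_mod_cast T_anti ha hab n

/-- **All `m`.** -/
theorem d_all {j : ℕ} (hj : 3 ≤ j) :
    2 * (1 + 2 / 10 ^ 17) / ((j : ℝ) - 1) ^ 2 ≤ d j := by
  by_contra hcon
  rw [not_le] at hcon
  have hj1 : (2 : ℝ) ≤ (j : ℝ) - 1 := by
    have : (3 : ℝ) ≤ j := by exact_mod_cast hj
    linarith
  have hjj : 0 < ((j : ℝ) - 1) ^ 2 := by positivity
  obtain ⟨c0, hc0⟩ : ∃ c : ℝ, c = 2 * (1 + 2 / 10 ^ 17) := ⟨_, rfl⟩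
  have hc0' : 0 < c0 := by rw [hc0]; norm_num
  rw [← hc0, lt_div_iff₀ hjj] at hcon
  obtain ⟨c1, h1, h2⟩ := exists_between (max_lt hcon hc0')
  have hc1 : 0 < c1 := (le_max_right _ _).trans_lt h1
  have hd1 : d j * ((j : ℝ) - 1) ^ 2 ≤ c1 := ((le_max_left _ _).trans_lt h1).le
  -- the parameter `A`
  obtain ⟨A, hA⟩ : ∃ A : ℝ, A = ((j : ℝ) - 1) / Real.sqrt c1 := ⟨_, rfl⟩
  have hsq : 0 < Real.sqrt c1 := Real.sqrt_pos.2 hc1
  have hA0 : 0 < A := by rw [hA]; exact div_pos (by linarith) hsq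
  have hA2 : A ^ 2 * d j ≤ 1 := by
    rw [hA, div_pow, Real.sq_sqrt hc1.le, div_mul_eq_mul_div, div_le_one hc1]
    linarith
  -- a large dilate
  obtain ⟨t, ht⟩ := exists_nat_ge ((10 : ℝ) ^ 20 + 36 * c1 / (c0 - c1) + 1)
  have hpos : 0 ≤ 36 * c1 / (c0 - c1) := div_nonneg (by positivity) (by linarith)
  have ht1 : (10 : ℝ) ^ 20 ≤ t := by linarith
  have ht2 : 36 * c1 / (c0 - c1) + 1 ≤ t := by
    have : (0 : ℝ) ≤ (10 : ℝ) ^ 20 := by positivity
    linarith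
  have ht3 : (1 : ℝ) ≤ t := by linarith
  have ht3' : 1 ≤ t := by exact_mod_cast ht3
  have hit := d_iter hj hA0 hA2 (12 * t - 1)
  have e1 : 12 * t - 1 + 1 = 12 * t := by omega
  have e2 : (((12 * t - 1 : ℕ) : ℝ) + 1) = 12 * t := by
    have : ((12 * t - 1 + 1 : ℕ) : ℝ) = ((12 * t : ℕ) : ℝ) := by rw [e1]
    push_cast at this
    exact this
  rw [e1, e2] at hit
  obtain ⟨J, hJ⟩ : ∃ J : ℕ, j = J + 1 := ⟨j - 1, by omega⟩
  have hJr : (j : ℝ) - 1 = J := by rw [hJ]; push_cast; ring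
  have hJ2 : (2 : ℝ) ≤ J := by rw [← hJr]; exact hj1
  have e3 : 12 * t * (j - 1) + 1 = 12 * (t * J) + 1 := by
    rw [hJ, Nat.add_sub_cancel]; ring
  rw [e3] at hit
  have hle : 12 * (t * J) + 1 ≤ 12 * (t * J + 1) := by omega
  have h3 : 3 ≤ 12 * (t * J) + 1 := by
    have : 1 ≤ J := by omega
    have : 1 ≤ t * J := Nat.one_le_iff_ne_zero.2 (by positivity)
    omega
  have hmono := d_anti h3 hle
  have hcore := d_core (q := t * J + 1) (by
    push_cast
    have : (t : ℝ) ≤ t * J := by nlinarith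
    linarith)
  obtain ⟨x, hx⟩ : ∃ x : ℝ, x = 12 * ((t : ℝ) * J) := ⟨_, rfl⟩
  have hxt : (t : ℝ) ≤ x := by
    have : (t : ℝ) ≤ t * J := by nlinarith
    have : (0 : ℝ) ≤ (t : ℝ) * J := by positivity
    rw [hx]; linarith
  have hx0 : 0 < x := by linarith
  have e4 : (12 * ((t * J + 1 : ℕ) : ℝ)) = x + 12 := by push_cast; rw [hx]; ring
  rw [e4, ← hc0] at hcore
  have e5 : (12 * (t : ℝ) * A) ^ 2 = x ^ 2 / c1 := by
    rw [hA, hJr, hx]
    rw [mul_div_assoc', div_pow, Real.sq_sqrt hc1.le]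
    ring
  rw [e5] at hit
  have h4 : x ^ 2 * d (12 * (t * J) + 1) ≤ c1 := by
    rw [div_mul_eq_mul_div, div_le_one hc1] at hit
    exact hit
  have h5 : c0 / (x + 12) ^ 2 ≤ d (12 * (t * J) + 1) := hcore.trans hmono
  have h6 : c0 * x ^ 2 ≤ c1 * (x + 12) ^ 2 := by
    have h7 : x ^ 2 * (c0 / (x + 12) ^ 2) ≤ c1 :=
      (mul_le_mul_of_nonneg_left h5 (by positivity)).trans h4
    rw [mul_div_assoc', div_le_iff₀ (by positivity)] at h7
    linarith
  have h8 : 36 * c1 < (c0 - c1) * x := by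
    have h9 : 36 * c1 / (c0 - c1) < x := by linarith
    rw [div_lt_iff₀ (by linarith)] at h9
    linarith
  have h12 : 12 ≤ x := by
    have : (12 : ℝ) ≤ (10 : ℝ) ^ 20 := by norm_num
    linarith
  nlinarith [mul_lt_mul_of_pos_right h8 hx0, mul_nonneg hc1.le (mul_nonneg hx0.le (by linarith : 0 ≤ x - 12))]

end Pool.Agent.H666.TK
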