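import Pool.Agent.H666.TK.CSum
import Pool.Agent.H666.TK.CP4
import Pool.Agent.H666.TK.CTau
import Pool.Agent.H79.TK_gibbs
import Pool.Agent.H721.TK_point
import Pool.Agent.H935.TK_mrem
import Pool.Agent.H51.TK_w1
import Pool.Agent.H967.TK_w2
import Pool.Agent.H51.TK_e1
import Pool.Agent.H389.TK_dich
import Pool.Agent.H120.TK_num
import Pool.Agent.H139.TK_loc
import Pool.Agent.H139.TK_cs
import Pool.Agent.H115.TK_q12
import Pool.Agent.H539.TK_q567
import Pool.Agent.H946.TK_q8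
import Pool.Agent.H97.TK_p123
import Pool.Agent.H996.TK_heavy
import Pool.Agent.H297.TK.Avg
import Pool.Agent.H410.TK_T1
import Pool.Agent.H168.TK_e2
import Pool.Agent.H155.TK_prod
import Pool.Agent.H618.TK_ch

/-!
# The collected lemmas
-/

set_option autoImplicit false

namespace Pool.Agent.H666.TK

theorem p_avg : S_avg := Pool.Agent.H297.TK.avg
theorem p_T1 : S_T1 := Pool.Agent.H410.TKT1.T1_holds
theorem p_gibbs : S_gibbs := Pool.Agent.H79.TKC3.gibbs
theorem p_point : S_point := Pool.Agent.H721.TK.s_point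
theorem p_mrem : S_mrem := Pool.Agent.H935.TKmrem.mrem
theorem p_w1 : S_w1 := Pool.Agent.H51.TK.w1 p_mrem
theorem p_e1 : S_e1 := Pool.Agent.H51.TK.e1 p_mrem
theorem p_dich : S_dich := Pool.Agent.H389.TKdich.dich
theorem p_num : S_num := Pool.Agent.H120.TKnum.num
theorem p_part : S_part := Pool.Agent.H139.TK.part
theorem p_loc : S_loc := Pool.Agent.H139.TK.loc
theorem p_cs : S_cs := Pool.Agent.H139.TK.cs
theorem p_q12 : S_q12 := Pool.Agent.H115.TK.q12
theorem p_q34 : S_q34 := Pool.Agent.H115.TK.q34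
theorem p_q567 : S_q567 := Pool.Agent.H539.TKq.t_q567
theorem p_q8 : S_q8 := Pool.Agent.H946.TK.t_q8
theorem p_p12 : S_p12 := Pool.Agent.H97.TK.p12
theorem p_p3 : S_p3 := Pool.Agent.H97.TK.p3
theorem p_heavy : S_heavy := Pool.Agent.H996.TK.heavy
theorem p_sum1 : S_sum1 := Pool.Agent.H34.TKsum.sum1
theorem p_sum2 : S_sum2 := Pool.Agent.H34.TKsum.sum2
theorem p_p4 : S_p4 := Pool.Agent.H571.TKp4.s_p4
theorem p_tau : S_tau := Pool.Agent.H353.TK.tau
theorem p_hv : S_hv := Pool.Agent.H353.TK.hv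
theorem p_prod1 : S_prod1 := Pool.Agent.H155.TK.prod1
theorem p_prod3 : S_prod3 := Pool.Agent.H155.TK.prod3
theorem p_w2 : S_w2 := Pool.Agent.H967.TKw2.w2 p_prod1
theorem p_e2 : S_e2 := Pool.Agent.H168.TKe2.e2 p_prod3
theorem p_ch : S_ch := Pool.Agent.H618.TK.s_ch

end Pool.Agent.H666.TK
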