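import Pool.Agent.H666.TK.Basic

/-!
# Statements of the counting part (each `S_...` is a proposition to be proved)
-/

set_option autoImplicit false

open Finset
open scoped Classical

namespace Pool.Agent.H666.TK

noncomputable section

/-- Every vertex is in `L`, extends `L`, is covered once or covered at least twice. -/
def S_part : Prop := ∀ (V : Type) [Fintype V] [DecidableEq V] (H : Finset (Finset V))
    (L : Finset V), Cl H L → Fintype.card V = L.card + e H L + Sg H L + Dd H L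

/-- The local inequality of Moon-Moser and de Caen, with the doubly covered vertices. -/
def S_loc : Prop := ∀ (V : Type) [Fintype V] [DecidableEq V] (H : Finset (Finset V)) (k : ℕ)
    (L : Finset V), L ∈ Cs H (k + 1) →
    ∑ a ∈ L, e H (L.erase a) + Dd H L + 2 * e H L ≤ (k + 1) * e H L + 2 * Fintype.card V

def S_sum1 : Prop := ∀ (V : Type) [Fintype V] [DecidableEq V] (H : Finset (Finset V)) (k : ℕ),
    ∑ K ∈ Cs H k, e H K = (k + 1) * N H (k + 1)

def S_sum2 : Prop := ∀ (V : Type) [Fintype V] [DecidableEq V] (H : Finset (Finset V)) (k : ℕ),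
    ∑ L ∈ Cs H (k + 1), ∑ a ∈ L, e H (L.erase a) = ∑ K ∈ Cs H k, e H K ^ 2

/-- Cauchy-Schwarz. -/
def S_cs : Prop := ∀ (V : Type) [Fintype V] [DecidableEq V] (H : Finset (Finset V)) (B k : ℕ),
    (TL H B k).card ^ 2 ≤ Fintype.card V * N H k * (QQ H B k).card

/-- Tuples `(R, a, b, x, c, z)` of `QQ` with `c = a` or `c = b`. -/
def S_q12 : Prop := ∀ (V : Type) [Fintype V] [DecidableEq V] (H : Finset (Finset V)) (B k : ℕ),
    ((QQ H B k).filter fun p => p.2.2.2.2.1 = p.2.1).card ≤ B * (TL H B k).card ∧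
    ((QQ H B k).filter fun p => p.2.2.2.2.1 = p.2.2.1).card ≤ B * (TL H B k).card

/-- Tuples `(R, a, b, x, c, z)` of `QQ` with `c` adjacent to `a`, or to `b`. -/
def S_q34 : Prop := ∀ (V : Type) [Fintype V] [DecidableEq V] (H : Finset (Finset V)) (B k : ℕ),
    ((QQ H B k).filter fun p => AD H p.1 p.2.1 p.2.2.2.2.1).card ≤ B * (PP H B k).card ∧
    ((QQ H B k).filter fun p => AD H p.1 p.2.2.1 p.2.2.2.2.1).card ≤ B * (PP H B k).card

/-- Tuples `(R, a, b, x, c, z)` of `QQ` such that `c` and two of `a, b, x` are critical. -/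
def S_q567 : Prop := ∀ (V : Type) [Fintype V] [DecidableEq V] (H : Finset (Finset V)) (B k : ℕ),
    ((QQ H B k).filter fun p => Tr H p.1 p.2.2.2.2.1 p.2.1 p.2.2.1).card ≤
      B ^ 2 * (TT H k).card ∧
    ((QQ H B k).filter fun p => Tr H p.1 p.2.2.2.2.1 p.2.1 p.2.2.2.1).card ≤
      B ^ 2 * (TT H k).card ∧
    ((QQ H B k).filter fun p => Tr H p.1 p.2.2.2.2.1 p.2.2.1 p.2.2.2.1).card ≤
      B ^ 2 * (TT H k).card

/-- The other tuples. -/
def S_q8 : Prop := ∀ (V : Type) [Fintype V] [DecidableEq V] (H : Finset (Finset V)) (B k : ℕ),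
    ((QQ H B k).filter fun p => p.2.2.2.2.1 ≠ p.2.1 ∧ p.2.2.2.2.1 ≠ p.2.2.1 ∧
      ¬ AD H p.1 p.2.1 p.2.2.2.2.1 ∧ ¬ AD H p.1 p.2.2.1 p.2.2.2.2.1 ∧
      ¬ Tr H p.1 p.2.2.2.2.1 p.2.1 p.2.2.1 ∧ ¬ Tr H p.1 p.2.2.2.2.1 p.2.1 p.2.2.2.1 ∧
      ¬ Tr H p.1 p.2.2.2.2.1 p.2.2.1 p.2.2.2.1).card ≤ (PP H B (k + 1)).card

/-- Tuples `(R, a, b, x, z)` of `PP` with `z` adjacent to `a`, or to `b`. -/
def S_p12 : Prop := ∀ (V : Type) [Fintype V] [DecidableEq V] (H : Finset (Finset V)) (B k : ℕ),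
    ((PP H B k).filter fun p => AD H p.1 p.2.2.2.2 p.2.1).card ≤ B * (CH H k).card ∧
    ((PP H B k).filter fun p => AD H p.1 p.2.2.2.2 p.2.2.1).card ≤ B * (CH H k).card

/-- Tuples `(R, a, b, x, z)` of `PP` with `z` not adjacent to `a`, `b`, but adjacent to `b` over
`R + a`. -/
def S_p3 : Prop := ∀ (V : Type) [Fintype V] [DecidableEq V] (H : Finset (Finset V)) (B k : ℕ),
    ((PP H B k).filter fun p => ¬ AD H p.1 p.2.2.2.2 p.2.1 ∧ ¬ AD H p.1 p.2.2.2.2 p.2.2.1 ∧
      AD H (insert p.2.1 p.1) p.2.2.1 p.2.2.2.2).card ≤ B * (TL H B k).card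

/-- Tuples `(R, a, b, x, z)` of `PP` with `z` not adjacent to `a`, `b`, and not adjacent to `b`
over `R + a`. -/
def S_p4 : Prop := ∀ (V : Type) [Fintype V] [DecidableEq V] (H : Finset (Finset V)) (B k : ℕ),
    ((PP H B k).filter fun p => ¬ AD H p.1 p.2.2.2.2 p.2.1 ∧ ¬ AD H p.1 p.2.2.2.2 p.2.2.1 ∧
      ¬ AD H (insert p.2.1 p.1) p.2.2.1 p.2.2.2.2).card ≤ (CH H (k + 1)).card

/-- Induced cherries give doubly covered vertices. -/
def S_ch : Prop := ∀ (V : Type) [Fintype V] [DecidableEq V] (H : Finset (Finset V)) (k : ℕ),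
    (CH H k).card ≤ 8 * DS H (k + 2)

/-- Critical triples and simply covered vertices. -/
def S_tau : Prop := ∀ (V : Type) [Fintype V] [DecidableEq V] (H : Finset (Finset V)) (k : ℕ),
    (TT H k).card = 2 * SS H (k + 2)

def S_heavy : Prop := ∀ (V : Type) [Fintype V] [DecidableEq V] (H : Finset (Finset V))
    (B k : ℕ), (TT H k).card ≤ (TL H B k).card + 3 * (HV H B k).card

def S_hv : Prop := ∀ (V : Type) [Fintype V] [DecidableEq V] (H : Finset (Finset V))
    (B k : ℕ), (HV H B k).card = 2 * HS H B (k + 2)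

end

end Pool.Agent.H666.TK
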