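import Pool.Agent.H666.TK.Ent

/-!
# The tilting inequality
-/

set_option autoImplicit false
set_option linter.unusedSectionVars false

open Finset
open scoped Classical

namespace Pool.Agent.H666.TK

noncomputable section

variable {V : Type} [Fintype V] [DecidableEq V] {H : Finset (Finset V)}

/-- The covered vertices. -/
def Cov (H : Finset (Finset V)) (L : Finset V) : Finset V :=
  univ.filter fun x => x ∉ L ∧ ¬ Cl H (insert x L)

theorem card_Cov {L : Finset V} :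
    (Cov H L).card + (L.card + e H L) = Fintype.card V := by
  have hd : Disjoint L (ext H L) := by
    rw [disjoint_left]
    intro x hx hx'
    exact (mem_ext.1 hx').1 hx
  have h1 : Cov H L = univ \ (L ∪ ext H L) := by
    ext x
    simp only [Cov, mem_filter, mem_univ, true_and, mem_sdiff, mem_union, mem_ext]
    tauto
  have h2 : (L ∪ ext H L).card = L.card + e H L := card_union_of_disjoint hd
  rw [h1, ← h2, card_sdiff_of_subset (subset_univ _), card_univ]
  exact Nat.sub_add_cancel (card_le_univ _)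

/-- A good weight for the ordered clique `v`. -/
def Good (H : Finset (Finset V)) (K : ℕ) (ρ : ℝ) (v : Fin K → V) (E G : ℝ) : Prop :=
  ∃ (a b : V → Fin K) (w : (Fin K → Fin (2 * K)) → ℝ),
    (∀ x ∈ Cov H (univ.image v), x ∉ univ.image v ∧ a x ≠ b x ∧
      ({x, v (a x), v (b x)} : Finset V) ∉ H) ∧
    (∀ u, 0 < w u) ∧ (∑ u, w u = ((2 * K : ℕ) : ℝ) ^ K) ∧
    (∑ u, w u * Real.log (w u) ≤ ((2 * K : ℕ) : ℝ) ^ K * E) ∧
    (∀ i, ((2 * K : ℕ) : ℝ) ^ K * ((∑ r, psi ρ (2 * K) r) / (2 * K)) ≤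
      ∑ u, w u * psi ρ (2 * K) (u i)) ∧
    ((2 * K : ℕ) : ℝ) ^ K * G ≤ ∑ x ∈ Cov H (univ.image v), ∑ u, w u *
      ∑ i : Fin K, (if u (a x) < u i ∧ u (b x) < u i then lam ρ (2 * K) (u i) else 0)

theorem e_bef_pos {K R : ℕ} {v : Fin K → V} (hv : v ∈ Seq H K) (u : Fin K → Fin R) (i : Fin K) :
    0 < e H (bef v u i) := by
  unfold e
  rw [card_pos]
  simp only [Seq, mem_filter, mem_univ, true_and] at hv
  refine ⟨v i, ?_⟩
  rw [mem_ext]
  constructor
  · intro h
    simp only [bef, mem_image, mem_filter, mem_univ, true_and] at h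
    obtain ⟨j, hj, hji⟩ := h
    have := hv.1 hji
    rw [this] at hj
    exact lt_irrefl _ hj
  · refine Cl_mono ?_ hv.2
    intro y hy
    rw [mem_insert] at hy
    rcases hy with rfl | hy
    · exact mem_image_of_mem _ (mem_univ _)
    · simp only [bef, mem_image, mem_filter, mem_univ, true_and] at hy
      obtain ⟨j, hj, rfl⟩ := hy
      exact mem_image_of_mem _ (mem_univ _)

/-- The estimate for one ordered clique. -/
theorem good_one (hpt : S_point) {K : ℕ} {ρ : ℝ} (hρ0 : 0 ≤ ρ) (hρ1 : ρ < 1)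
    {v : Fin K → V} (hv : v ∈ Seq H K) {E G : ℝ} (hn : 0 < Fintype.card V)
    {a b : V → Fin K} {w : (Fin K → Fin (2 * K)) → ℝ}
    (hC : ∀ x ∈ Cov H (univ.image v), x ∉ univ.image v ∧ a x ≠ b x ∧
      ({x, v (a x), v (b x)} : Finset V) ∉ H)
    (hw : ∀ u, 0 < w u) (hw1 : ∑ u, w u = ((2 * K : ℕ) : ℝ) ^ K)
    (hwE : ∑ u, w u * Real.log (w u) ≤ ((2 * K : ℕ) : ℝ) ^ K * E)
    (hwm : ∀ i, ((2 * K : ℕ) : ℝ) ^ K * ((∑ r, psi ρ (2 * K) r) / (2 * K)) ≤
      ∑ u, w u * psi ρ (2 * K) (u i))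
    (hwG : ((2 * K : ℕ) : ℝ) ^ K * G ≤ ∑ x ∈ Cov H (univ.image v), ∑ u, w u *
      ∑ i : Fin K, (if u (a x) < u i ∧ u (b x) < u i then lam ρ (2 * K) (u i) else 0)) :
    ∑ u, w u * (Real.log (w u) - Real.log (∏ i : Fin K, ((e H (bef v u i) : ℝ))⁻¹)) ≤
      ((2 * K : ℕ) : ℝ) ^ K * (E + K * Real.log (Fintype.card V) -
        K * ((∑ r, psi ρ (2 * K) r) / (2 * K)) - G / Fintype.card V) := by
  have hn' : (0 : ℝ) < Fintype.card V := by exact_mod_cast hn
  have h1 : ∀ u : Fin K → Fin (2 * K),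
      - Real.log (∏ i : Fin K, ((e H (bef v u i) : ℝ))⁻¹) =
      ∑ i : Fin K, Real.log (e H (bef v u i) : ℝ) := by
    intro u
    rw [Real.log_prod (fun i _ => inv_ne_zero (by
      have := e_bef_pos hv u i
      exact_mod_cast this.ne')), ← sum_neg_distrib]
    refine sum_congr rfl fun i _ => ?_
    rw [Real.log_inv, neg_neg]
  have h2 : ∀ u : Fin K → Fin (2 * K),
      w u * (Real.log (w u) - Real.log (∏ i : Fin K, ((e H (bef v u i) : ℝ))⁻¹)) ≤
      w u * Real.log (w u) + w u * (K * Real.log (Fintype.card V)) -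
        ∑ i : Fin K, w u * psi ρ (2 * K) (u i) -
        (1 / (Fintype.card V : ℝ)) * ∑ x ∈ Cov H (univ.image v), w u * ∑ i : Fin K,
          (if u (a x) < u i ∧ u (b x) < u i then lam ρ (2 * K) (u i) else 0) := by
    intro u
    have h3 := hpt V H K (2 * K) v u ρ a b (Cov H (univ.image v)) hv hρ0 hρ1 hC
    rw [← h1 u] at h3
    have h4 := mul_le_mul_of_nonneg_left h3 (hw u).le
    have e1 : w u * (K * Real.log (Fintype.card V) - ∑ i : Fin K, psi ρ (2 * K) (u i) -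
        (1 / (Fintype.card V : ℝ)) * ∑ x ∈ Cov H (univ.image v), ∑ i : Fin K,
          (if u (a x) < u i ∧ u (b x) < u i then lam ρ (2 * K) (u i) else 0)) =
        w u * (K * Real.log (Fintype.card V)) -
        ∑ i : Fin K, w u * psi ρ (2 * K) (u i) -
        (1 / (Fintype.card V : ℝ)) * ∑ x ∈ Cov H (univ.image v), w u * ∑ i : Fin K,
          (if u (a x) < u i ∧ u (b x) < u i then lam ρ (2 * K) (u i) else 0) := by
      rw [← mul_sum, ← mul_sum]
      ring
    rw [e1] at h4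
    rw [mul_sub]
    linarith
  refine (sum_le_sum fun u _ => h2 u).trans ?_
  rw [sum_sub_distrib, sum_sub_distrib, sum_add_distrib, ← sum_mul, hw1, ← mul_sum,
    sum_comm (f := fun u i => w u * psi ρ (2 * K) (u i)),
    sum_comm (f := fun u x => w u * ∑ i : Fin K,
          (if u (a x) < u i ∧ u (b x) < u i then lam ρ (2 * K) (u i) else 0))]
  have h5 : (K : ℝ) * (((2 * K : ℕ) : ℝ) ^ K * ((∑ r, psi ρ (2 * K) r) / (2 * K))) ≤
      ∑ i : Fin K, ∑ u, w u * psi ρ (2 * K) (u i) := by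
    have := sum_le_sum (s := (univ : Finset (Fin K))) fun i _ => hwm i
    rw [sum_const, card_univ, Fintype.card_fin, nsmul_eq_mul] at this
    exact this
  have h6 : (1 / (Fintype.card V : ℝ)) * (((2 * K : ℕ) : ℝ) ^ K * G) ≤
      (1 / (Fintype.card V : ℝ)) * ∑ x ∈ Cov H (univ.image v), ∑ u, w u *
      ∑ i : Fin K, (if u (a x) < u i ∧ u (b x) < u i then lam ρ (2 * K) (u i) else 0) :=
    mul_le_mul_of_nonneg_left hwG (by positivity)
  have e2 : ((2 * K : ℕ) : ℝ) ^ K * (E + K * Real.log (Fintype.card V) -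
        K * ((∑ r, psi ρ (2 * K) r) / (2 * K)) - G / Fintype.card V) =
      ((2 * K : ℕ) : ℝ) ^ K * E + ((2 * K : ℕ) : ℝ) ^ K * (K * Real.log (Fintype.card V)) -
      (K : ℝ) * (((2 * K : ℕ) : ℝ) ^ K * ((∑ r, psi ρ (2 * K) r) / (2 * K))) -
      (1 / (Fintype.card V : ℝ)) * (((2 * K : ℕ) : ℝ) ^ K * G) := by
    field_simp
  rw [e2]
  linarith

/-- **The tilting inequality.** -/
theorem tilt (ha : S_avg) (hT1 : S_T1) (hg : S_gibbs) (hpt : S_point) (hnum : S_num)
    {K : ℕ} (hK : 1 ≤ K) (hN : 0 < N H K) {F : ℝ}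
    (hF0 : 0 ≤ F) (hF : F * (K : ℝ) ^ 2 ≤ 27 / 100)
    (hfb : ∀ i, i < K → fb H i ≤ F * (i : ℝ) ^ 2) (E G : (Fin K → V) → ℝ)
    (hgood : ∀ v ∈ Seq H K, Good H K (F * (K : ℝ) ^ 2) v (E v) (G v)) :
    ∑ v ∈ Seq H K, (G v / Fintype.card V - E v) ≤
      ((Seq H K).card : ℝ) * (K * (F * (K : ℝ) ^ 2) * Lam K (lam (F * (K : ℝ) ^ 2) (2 * K))) := by
  have hn : 0 < Fintype.card V := card_pos_of_N hK hN
  have hn' : (0 : ℝ) < Fintype.card V := by exact_mod_cast hn
  have hK' : (0 : ℝ) < K := by exact_mod_cast hK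
  have hM : (0 : ℝ) < ((2 * K : ℕ) : ℝ) ^ K := by positivity
  have : Nonempty (Fin K) := ⟨⟨0, hK⟩⟩
  have : Nonempty (Fin (2 * K)) := ⟨⟨0, by omega⟩⟩
  have hent := ent_lower ha hnum hK hN hF0 hF hfb
  obtain ⟨ρ, hρ⟩ : ∃ ρ : ℝ, ρ = F * (K : ℝ) ^ 2 := ⟨_, rfl⟩
  rw [← hρ] at hF hgood hent ⊢
  have hρ0 : 0 ≤ ρ := by rw [hρ]; positivity
  have hS0 : (0 : ℝ) < (Seq H K).card := by
    rw [card_Seq ha]
    have h0' : (0 : ℝ) < N H K := by exact_mod_cast hN
    have : (0 : ℝ) < K.factorial := by exact_mod_cast Nat.factorial_pos K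
    positivity
  have hSne : (Seq H K).Nonempty := by
    rw [← card_pos]; exact_mod_cast hS0
  unfold Good at hgood
  choose! a b w hC hw hw1 hwE hwm hwG using hgood
  have hβ : (Fintype.card (Fin K → Fin (2 * K)) : ℝ) = ((2 * K : ℕ) : ℝ) ^ K := by
    rw [Fintype.card_fun, Fintype.card_fin, Fintype.card_fin]
    push_cast
    ring
  have h := hg (Fin K → V) (Fin K → Fin (2 * K)) (Seq H K)
    (fun v u => ∏ i : Fin K, ((e H (bef v u i) : ℝ))⁻¹) w hSne
    (fun v hv u => prod_pos fun i _ => inv_pos.2 (by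
      have := e_bef_pos hv u i
      exact_mod_cast this))
    (fun u => hT1 V H K (2 * K) u)
    hw (fun v hv => by rw [hβ]; exact hw1 v hv)
  rw [hβ] at h
  have h2 : ∑ v ∈ Seq H K, ∑ u, w v u * (Real.log (w v u) -
      Real.log (∏ i : Fin K, ((e H (bef v u i) : ℝ))⁻¹)) ≤
      ∑ v ∈ Seq H K, ((2 * K : ℕ) : ℝ) ^ K * (E v + K * Real.log (Fintype.card V) -
        K * ((∑ r, psi ρ (2 * K) r) / (2 * K)) - G v / Fintype.card V) := by
    refine sum_le_sum fun v hv => ?_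
    exact good_one hpt hρ0 (by linarith) hv hn (hC v hv) (hw v hv) (hw1 v hv) (hwE v hv)
      (hwm v hv) (hwG v hv)
  rw [← mul_sum] at h2
  have h3 := h.trans h2
  have h4 : ((Seq H K).card : ℝ) * Real.log (Seq H K).card ≤
      ∑ v ∈ Seq H K, (E v + K * Real.log (Fintype.card V) -
        K * ((∑ r, psi ρ (2 * K) r) / (2 * K)) - G v / Fintype.card V) := by
    have : ((2 * K : ℕ) : ℝ) ^ K * (((Seq H K).card : ℝ) * Real.log (Seq H K).card) ≤
        ((2 * K : ℕ) : ℝ) ^ K * ∑ v ∈ Seq H K, (E v + K * Real.log (Fintype.card V) -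
        K * ((∑ r, psi ρ (2 * K) r) / (2 * K)) - G v / Fintype.card V) := by
      calc _ = ((Seq H K).card : ℝ) * ((2 * K : ℕ) : ℝ) ^ K * Real.log (Seq H K).card := by ring
        _ ≤ _ := h3
    exact le_of_mul_le_mul_left this hM
  rw [avg_psi] at h4
  have h5 : ∑ v ∈ Seq H K, (E v + K * Real.log (Fintype.card V) -
        K * (AL K ρ - ρ * Lam K (lam ρ (2 * K))) - G v / Fintype.card V) =
      ((Seq H K).card : ℝ) * (K * Real.log (Fintype.card V) -
        K * (AL K ρ - ρ * Lam K (lam ρ (2 * K)))) -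
      ∑ v ∈ Seq H K, (G v / Fintype.card V - E v) := by
    have e3 : ((Seq H K).card : ℝ) * (K * Real.log (Fintype.card V) -
        K * (AL K ρ - ρ * Lam K (lam ρ (2 * K)))) = ∑ v ∈ Seq H K,
        ((K : ℝ) * Real.log (Fintype.card V) -
        K * (AL K ρ - ρ * Lam K (lam ρ (2 * K)))) := by
      rw [sum_const, nsmul_eq_mul]
    rw [e3, ← sum_sub_distrib]
    refine sum_congr rfl fun v _ => ?_
    ring
  rw [h5] at h4
  have h6 := mul_le_mul_of_nonneg_left hent hS0.le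
  nlinarith

end

end Pool.Agent.H666.TK
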